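import Pool.Agent.PSR10.Main

/-!
# Short relations

A set with property `P_δ` is a union of `O((m + log s)/δ)` sets without relations of at most `s` terms and coefficients at most `m`.
-/

set_option autoImplicit false
set_option linter.unusedSectionVars false

namespace Pool.Agent.PSR10

open Finset

variable {G : Type*} [AddCommGroup G] {ι : Type*} [DecidableEq ι]

/-- No nontrivial relation with at most `s` terms and coefficients of absolute value at most `m`. -/
def Fr (m s : ℕ) (b : ι → G) (A : Finset ι) : Prop :=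
  ∀ N : Finset ι, N ⊆ A → N.Nonempty → N.card ≤ s →
    ∀ c : ι → ℤ, (∀ i ∈ N, c i ≠ 0 ∧ |c i| ≤ (m : ℤ)) → ∑ i ∈ N, c i • b i ≠ 0

lemma Fr_mono {m s : ℕ} {b : ι → G} (A B : Finset ι) (h : A ⊆ B) (hB : Fr m s b B) : Fr m s b A :=
  fun N hN => hB N (hN.trans h)

lemma Fr_empty {m s : ℕ} {b : ι → G} : Fr m s b ∅ := by
  intro N hN hne
  rw [subset_empty] at hN
  subst hN
  exact absurd hne not_nonempty_empty

lemma mn_Fr {m s : ℕ} {b : ι → G} {N : Finset ι} (hN : Mn (Fr m s b) N) :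
    N.card ≤ s ∧ ∃ c : ι → ℤ, (∀ i ∈ N, c i ≠ 0 ∧ |c i| ≤ (m : ℤ)) ∧ ∑ i ∈ N, c i • b i = 0 := by
  obtain ⟨h1, h2⟩ := hN
  unfold Fr at h1
  push Not at h1
  obtain ⟨N', hN', hne, hs, c, hc, h0⟩ := h1
  have : N' = N := by
    by_contra hcon
    obtain ⟨x, hx, hxN⟩ : ∃ x ∈ N, x ∉ N' := by
      by_contra hcon2
      push Not at hcon2
      exact hcon (Subset.antisymm hN' hcon2)
    refine h2 x hx N' ?_ hne hs c hc h0
    intro z hz
    rw [mem_erase]
    exact ⟨fun h => hxN (h ▸ hz), hN' hz⟩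
  subst this
  exact ⟨hs, c, hc, h0⟩

/-- A dominated element is, up to a factor, a short combination. -/
lemma exists_rep {m s : ℕ} {b : ι → G} {N E : Finset ι} (hN : Mn (Fr m s b) N) {x : ι} (hx : x ∈ N) (hE : N.erase x ⊆ E) :
    ∃ k : ℕ, 1 ≤ k ∧ k ≤ m ∧ ∃ c : ι → ℤ, (∀ e, |c e| ≤ (m : ℤ)) ∧ (E.filter (fun e => c e ≠ 0)).card ≤ s ∧
      k • b x = ∑ e ∈ E, c e • b e := by
  obtain ⟨hs, c, hc, h0⟩ := mn_Fr hN
  obtain ⟨hx0, hxm⟩ := hc x hx
  refine ⟨(c x).natAbs, ?_, ?_, fun e => if e ∈ N.erase x then -(Int.sign (c x)) * c e else 0, ?_, ?_, ?_⟩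
  · exact Int.natAbs_pos.mpr hx0
  · have : ((c x).natAbs : ℤ) ≤ m := by rw [Int.natCast_natAbs]; exact hxm
    exact_mod_cast this
  · intro e
    beta_reduce
    split_ifs with h
    · have h1 := (hc e (mem_of_mem_erase h)).2
      rw [abs_mul, abs_neg]
      have h2 : |Int.sign (c x)| = 1 := by
        rcases lt_or_gt_of_ne hx0 with h3 | h3
        · rw [Int.sign_eq_neg_one_of_neg h3]; norm_num
        · rw [Int.sign_eq_one_of_pos h3]; norm_num
      rw [h2, one_mul]
      exact h1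
    · rw [abs_zero]
      exact Int.natCast_nonneg m
  · refine le_trans (card_le_card ?_) ((card_le_card (erase_subset x N)).trans hs)
    intro e he
    rw [mem_filter] at he
    by_contra hcon
    apply he.2
    beta_reduce
    rw [if_neg hcon]
  · have h1 : ∑ e ∈ E, (if e ∈ N.erase x then -(Int.sign (c x)) * c e else 0) • b e =
        ∑ e ∈ N.erase x, (-(Int.sign (c x)) * c e) • b e := by
      rw [← sum_subset hE]
      · apply sum_congr rfl
        intro e he
        rw [if_pos he]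
      · intro e _ he
        rw [if_neg he, zero_smul]
    rw [h1]
    have h2 : ∑ e ∈ N.erase x, (-(Int.sign (c x)) * c e) • b e = -(Int.sign (c x)) • ∑ e ∈ N.erase x, c e • b e := by
      rw [smul_sum]
      apply sum_congr rfl
      intro e _
      rw [mul_smul]
    rw [h2]
    have h3 : ∑ e ∈ N.erase x, c e • b e = -(c x • b x) := by
      rw [← add_sum_erase N _ hx] at h0
      exact eq_neg_of_add_eq_zero_right h0
    rw [h3, smul_neg, neg_smul, neg_neg, smul_smul, Int.sign_mul_self, natCast_zsmul]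

/-- The counting lemma. -/
lemma pow_le_prod [IsAddTorsionFree G] {m : ℕ} {M : ℕ} (hM0 : M ≠ 0) {b : ι → G} {A E : Finset ι} (hA : Indep b A) (k : ι → ℕ) (c : ι → ι → ℤ)
    (hk : ∀ v ∈ A, k v ∣ M) (hc : ∀ v ∈ A, ∀ e, |c v e| ≤ (m : ℤ))
    (hrep : ∀ v ∈ A, k v • b v = ∑ e ∈ E, c v e • b e) :
    2 ^ A.card ≤ ∏ e ∈ E, (2 * (M * m * (A.filter (fun v => c v e ≠ 0)).card) + 1) := by
  classical
  set d : ι → ℕ := fun e => (A.filter (fun v => c v e ≠ 0)).card with hd
  set Φ : Finset ι → ((e : ι) → e ∈ E → ℤ) := fun s e _ => ∑ v ∈ s, ((M / k v : ℕ) : ℤ) * c v e with hΦ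
  have hcard : (E.pi (fun e => Icc (-((M * m * d e : ℕ) : ℤ)) ((M * m * d e : ℕ) : ℤ))).card = ∏ e ∈ E, (2 * (M * m * d e) + 1) := by
    rw [card_pi]
    apply prod_congr rfl
    intro e _
    rw [Int.card_Icc]
    have : ((M * m * d e : ℕ) : ℤ) + 1 - -((M * m * d e : ℕ) : ℤ) = ((2 * (M * m * d e) + 1 : ℕ) : ℤ) := by
      push_cast
      ring
    rw [this, Int.toNat_natCast]
  rw [← hcard, ← card_powerset]
  apply card_le_card_of_injOn Φ
  · intro s hs
    rw [mem_coe, mem_powerset] at hs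
    rw [mem_coe, mem_pi]
    intro e _
    rw [mem_Icc, ← abs_le]
    have h1 : |∑ v ∈ s, ((M / k v : ℕ) : ℤ) * c v e| ≤ ∑ v ∈ s, (if c v e ≠ 0 then ((M * m : ℕ) : ℤ) else 0) := by
      refine (abs_sum_le_sum_abs _ _).trans (sum_le_sum ?_)
      intro v hv
      split_ifs with h
      · rw [abs_mul, Nat.abs_cast]
        push_cast
        have h2 := hc v (hs hv) e
        have h3 : ((M / k v : ℕ) : ℤ) ≤ M := by exact_mod_cast Nat.div_le_self _ _
        exact mul_le_mul h3 h2 (abs_nonneg _) (Int.natCast_nonneg _)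
      · push Not at h
        rw [h]
        simp
    refine h1.trans ?_
    calc ∑ v ∈ s, (if c v e ≠ 0 then ((M * m : ℕ) : ℤ) else 0) ≤ ∑ v ∈ A, (if c v e ≠ 0 then ((M * m : ℕ) : ℤ) else 0) := by
          apply sum_le_sum_of_subset_of_nonneg hs
          intro v _ _
          split_ifs
          · exact Int.natCast_nonneg _
          · exact le_refl _
      _ = ((M * m * d e : ℕ) : ℤ) := by
          rw [← sum_filter, sum_const, nsmul_eq_mul, hd]
          push_cast
          ring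
  · intro s hs t ht hst
    rw [mem_coe, mem_powerset] at hs ht
    apply hA s hs t ht
    have key : ∀ u : Finset ι, u ⊆ A → M • ∑ v ∈ u, b v = ∑ e ∈ E, (∑ v ∈ u, ((M / k v : ℕ) : ℤ) * c v e) • b e := by
      intro u hu
      rw [smul_sum]
      have h1 : ∀ v ∈ u, M • b v = ∑ e ∈ E, (((M / k v : ℕ) : ℤ) * c v e) • b e := by
        intro v hv
        have h2 : M = (M / k v) * k v := (Nat.div_mul_cancel (hk v (hu hv))).symm
        conv_lhs => rw [h2]
        rw [mul_smul, hrep v (hu hv), smul_sum]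
        apply sum_congr rfl
        intro e _
        rw [mul_smul, natCast_zsmul]
      rw [sum_congr rfl h1, sum_comm]
      apply sum_congr rfl
      intro e _
      rw [sum_smul]
    have h2 : M • ∑ v ∈ s, b v = M • ∑ v ∈ t, b v := by
      rw [key s hs, key t ht]
      apply sum_congr rfl
      intro e he
      have := congrFun (congrFun hst e) he
      simp only [hΦ] at this
      rw [this]
    exact nsmul_right_injective hM0 h2

/-- The logarithmic form of the counting lemma. -/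
lemma card_le_short [IsAddTorsionFree G] {m s : ℕ} (hm : 1 ≤ m) (hs : 1 ≤ s) {b : ι → G} {A E : Finset ι} (hA : Indep b A)
    (hrep : ∀ v ∈ A, ∃ k : ℕ, 1 ≤ k ∧ k ≤ m ∧ ∃ c : ι → ℤ, (∀ e, |c e| ≤ (m : ℤ)) ∧
      (E.filter (fun e => c e ≠ 0)).card ≤ s ∧ k • b v = ∑ e ∈ E, c e • b e) :
    (A.card : ℝ) ≤ 21 * (m + Real.log s) * E.card := by
  classical
  set M := Nat.lcmUpto m with hM
  have hM0 : M ≠ 0 := Nat.lcmUpto_ne_zero m
  have hm1 : (1 : ℝ) ≤ m := by exact_mod_cast hm
  have hs1 : (1 : ℝ) ≤ s := by exact_mod_cast hs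
  have hMpos : (1 : ℝ) ≤ M := by exact_mod_cast Nat.one_le_iff_ne_zero.mpr hM0
  choose! k hk1 hkm c hc hcs hr using hrep
  have hkM : ∀ v ∈ A, k v ∣ M := by
    intro v hv
    rw [hM, Nat.lcmUpto]
    exact dvd_lcm (f := id) (mem_Icc.mpr ⟨hk1 v hv, hkm v hv⟩)
  have h1 := pow_le_prod hM0 hA k c hkM hc hr
  set d : ι → ℕ := fun e => (A.filter (fun v => c v e ≠ 0)).card with hd
  have h2 : (2 : ℝ) ^ A.card ≤ ∏ e ∈ E, (2 * (M * m * (d e : ℝ)) + 1) := by exact_mod_cast h1
  have h3 : (A.card : ℝ) * Real.log 2 ≤ ∑ e ∈ E, Real.log (2 * (M * m * (d e : ℝ)) + 1) := by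
    rw [← Real.log_pow, ← Real.log_prod (fun e _ => by positivity)]
    exact Real.log_le_log (by positivity) h2
  have h4 : ∀ e ∈ E, Real.log (2 * (M * m * (d e : ℝ)) + 1) ≤ Real.log (3 * (M * m)) + Real.log (4 * s) + (d e : ℝ) / (4 * s) := by
    intro e _
    have hde : (0 : ℝ) ≤ d e := Nat.cast_nonneg _
    have hMm : (1 : ℝ) ≤ M * m := one_le_mul_of_one_le_of_one_le hMpos hm1
    have h5 : 2 * (M * m * (d e : ℝ)) + 1 ≤ (3 * (M * m)) * (1 + d e) := by nlinarith
    have h6 : Real.log (2 * (M * m * (d e : ℝ)) + 1) ≤ Real.log (3 * (M * m)) + Real.log (1 + d e) := by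
      rw [← Real.log_mul (by positivity) (by positivity)]
      exact Real.log_le_log (by positivity) h5
    have h7 : Real.log (1 + d e) ≤ Real.log (4 * s) + (d e : ℝ) / (4 * s) := by
      have h8 := Real.log_le_sub_one_of_pos (x := (1 + d e) / (4 * s)) (by positivity)
      rw [Real.log_div (by positivity) (by positivity)] at h8
      have h9 : (1 + (d e : ℝ)) / (4 * s) = 1 / (4 * s) + d e / (4 * s) := by ring
      have h10 : (1 : ℝ) / (4 * s) ≤ 1 := by
        rw [div_le_one (by positivity)]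
        linarith
      linarith
    linarith
  have h5 : ∑ e ∈ E, ((d e : ℝ)) ≤ s * A.card := by
    have h6 : ∑ e ∈ E, d e ≤ s * A.card := by
      have h7 : ∑ e ∈ E, d e = ∑ v ∈ A, (E.filter (fun e => c v e ≠ 0)).card := by
        simp only [hd, card_filter]
        exact sum_comm
      rw [h7]
      calc ∑ v ∈ A, (E.filter (fun e => c v e ≠ 0)).card ≤ ∑ _v ∈ A, s := sum_le_sum (fun v hv => hcs v hv)
        _ = s * A.card := by rw [sum_const, smul_eq_mul, mul_comm]
    exact_mod_cast h6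
  have h6 : (A.card : ℝ) * Real.log 2 ≤ E.card * (Real.log (3 * (M * m)) + Real.log (4 * s)) + (A.card : ℝ) / 4 := by
    refine h3.trans ((sum_le_sum h4).trans ?_)
    rw [sum_add_distrib, sum_const, nsmul_eq_mul, ← sum_div]
    have h7 : (∑ e ∈ E, (d e : ℝ)) / (4 * s) ≤ (A.card : ℝ) / 4 := by
      rw [div_le_div_iff₀ (by positivity) (by positivity)]
      nlinarith
    linarith
  have hlogM : Real.log M ≤ (Real.log 4 + 4) * m := by
    rw [hM, ← Chebyshev.psi_eq_log_lcmUpto]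
    exact Chebyshev.psi_le_const_mul_self (by positivity)
  have hl2 : Real.log 2 < 0.6931471808 := Real.log_two_lt_d9
  have hl2' : 0.6931471803 < Real.log 2 := Real.log_two_gt_d9
  have hl4 : Real.log 4 = 2 * Real.log 2 := by
    rw [show (4 : ℝ) = 2 ^ 2 by norm_num, Real.log_pow]
    norm_num
  have hl3 : Real.log 3 ≤ 2 * Real.log 2 := by
    rw [← hl4]
    exact Real.log_le_log (by norm_num) (by norm_num)
  have hlogm : Real.log m ≤ m - 1 := Real.log_le_sub_one_of_pos (by linarith)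
  have hlogs : 0 ≤ Real.log s := Real.log_nonneg hs1
  have h7 : Real.log (3 * (M * m)) = Real.log 3 + (Real.log M + Real.log m) := by
    rw [Real.log_mul (by norm_num) (by positivity), Real.log_mul (by positivity) (by positivity)]
  have h8 : Real.log (4 * s) = Real.log 4 + Real.log s := Real.log_mul (by norm_num) (by positivity)
  have h9 : Real.log (3 * (M * m)) + Real.log (4 * s) ≤ 8.3 * m + Real.log s := by
    rw [h7, h8]
    nlinarith
  have hE : (0 : ℝ) ≤ E.card := Nat.cast_nonneg _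
  have h10 : (A.card : ℝ) * (Real.log 2 - 1 / 4) ≤ E.card * (8.3 * m + Real.log s) := by
    have := mul_le_mul_of_nonneg_left h9 hE
    linarith
  have h11 : (A.card : ℝ) * 0.443 ≤ E.card * (8.3 * m + Real.log s) := by
    refine le_trans ?_ h10
    apply mul_le_mul_of_nonneg_left _ (Nat.cast_nonneg _)
    linarith
  have h12 : (E.card : ℝ) * (8.3 * m + Real.log s) ≤ E.card * (0.443 * 21 * (m + Real.log s)) := by
    apply mul_le_mul_of_nonneg_left _ hE
    linarith
  linarith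

/-- Linear domination for short relations. -/
lemma dom_short [IsAddTorsionFree G] {δ : ℝ} (hδ : 0 < δ) (hδ1 : δ ≤ 1) {m s : ℕ} (hm : 1 ≤ m) (hs : 1 ≤ s) {b : ι → G} {V : Finset ι}
    (hV : Prop' δ b V) {E : Finset ι} :
    ((dom (Fr m s b) V E).card : ℝ) ≤ 22 * (m + Real.log s) / δ * E.card := by
  classical
  have hm1 : (1 : ℝ) ≤ m := by exact_mod_cast hm
  have hs1 : (1 : ℝ) ≤ s := by exact_mod_cast hs
  have hlogs : 0 ≤ Real.log s := Real.log_nonneg hs1
  have hE : (0 : ℝ) ≤ E.card := Nat.cast_nonneg _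
  set D := dom (Fr m s b) V E \ E with hD
  have hDV : D ⊆ V := by
    intro x hx
    rw [hD, mem_sdiff] at hx
    simp only [dom, mem_filter] at hx
    exact hx.1.1
  obtain ⟨A, hA1, hA2, hA3⟩ := hV D hDV
  have h1 : (A.card : ℝ) ≤ 21 * (m + Real.log s) * E.card := by
    apply card_le_short hm hs hA3
    intro v hv
    have hvD := hA1 hv
    rw [hD, mem_sdiff] at hvD
    have h2 := hvD.1
    simp only [dom, mem_filter] at h2
    rcases h2.2 with h3 | ⟨N, _, hN, hvN, hNE⟩
    · exact absurd h3 hvD.2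
    · exact exists_rep hN hvN hNE
  have h2 : (D.card : ℝ) ≤ 21 * (m + Real.log s) * E.card / δ := by
    rw [le_div_iff₀ hδ]
    linarith
  have h3 : ((dom (Fr m s b) V E).card : ℝ) ≤ D.card + E.card := by
    have : (dom (Fr m s b) V E).card ≤ D.card + E.card := by
      rw [hD]
      exact card_le_card_sdiff_add_card
    exact_mod_cast this
  have h4 : (E.card : ℝ) ≤ (m + Real.log s) * E.card / δ := by
    rw [le_div_iff₀ hδ]
    nlinarith
  have h5 : 22 * (m + Real.log s) / δ * E.card = 21 * (m + Real.log s) * E.card / δ + (m + Real.log s) * E.card / δ := by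
    ring
  linarith

lemma ceil_le {δ : ℝ} (hδ : 0 < δ) (hδ1 : δ ≤ 1) {m s : ℕ} (hm : 1 ≤ m) (hs : 1 ≤ s) :
    ((⌈44 * (m + Real.log s) / δ⌉₊ : ℕ) : ℝ) ≤ 45 * (m + Real.log s) / δ := by
  have hm1 : (1 : ℝ) ≤ m := by exact_mod_cast hm
  have hs1 : (1 : ℝ) ≤ s := by exact_mod_cast hs
  have hlogs : 0 ≤ Real.log s := Real.log_nonneg hs1
  set X : ℝ := 44 * (m + Real.log s) / δ with hX
  have hX1 : 1 ≤ (m + Real.log s) / δ := by
    rw [le_div_iff₀ hδ]
    linarith
  have hX44 : X = 44 * ((m + Real.log s) / δ) := by rw [hX]; ring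
  have hK2 : ((⌈X⌉₊ : ℕ) : ℝ) < X + 1 := Nat.ceil_lt_add_one (by linarith)
  have : 45 * (m + Real.log s) / δ = X + (m + Real.log s) / δ := by rw [hX]; ring
  linarith

/-- The covering theorem for short relations. -/
theorem short_cover [IsAddTorsionFree G] {δ : ℝ} (hδ : 0 < δ) (hδ1 : δ ≤ 1) {m s : ℕ} (hm : 1 ≤ m) (hs : 1 ≤ s) (b : ℕ → G)
    (hb : ∀ F : Finset ℕ, ∃ A : Finset ℕ, A ⊆ F ∧ δ * (F.card : ℝ) ≤ (A.card : ℝ) ∧ Indep b A) :
    ∃ f : ℕ → Fin ⌈44 * (m + Real.log s) / δ⌉₊, ∀ i, ∀ F : Finset ℕ, (∀ x ∈ F, f x = i) → Fr m s b F := by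
  have hm1 : (1 : ℝ) ≤ m := by exact_mod_cast hm
  have hs1 : (1 : ℝ) ≤ s := by exact_mod_cast hs
  have hlogs : 0 ≤ Real.log s := Real.log_nonneg hs1
  set X : ℝ := 44 * (m + Real.log s) / δ with hX
  have hX1 : 1 ≤ (m + Real.log s) / δ := by
    rw [le_div_iff₀ hδ]
    linarith
  have hX44 : X = 44 * ((m + Real.log s) / δ) := by rw [hX]; ring
  have hK1 : X ≤ ⌈X⌉₊ := Nat.le_ceil _
  apply compactness (Fr m s b) (fun A B => Fr_mono A B)
  intro n
  have hK0 : 0 < ⌈X⌉₊ := by
    rw [Nat.ceil_pos]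
    linarith
  apply cover (Fr m s b) (fun A B => Fr_mono A B) Fr_empty _ hK0
  intro E _
  have h1 := dom_short hδ hδ1 hm hs (b := b) (V := range n) (fun F _ => hb F) (E := E)
  have h2 : (2 : ℝ) * (dom (Fr m s b) (range n) E).card ≤ (⌈X⌉₊ : ℕ) * E.card := by
    have h3 : (0 : ℝ) ≤ E.card := Nat.cast_nonneg _
    calc (2 : ℝ) * (dom (Fr m s b) (range n) E).card ≤ 2 * (22 * (m + Real.log s) / δ * E.card) := by linarith
      _ = X * E.card := by rw [hX]; ring
      _ ≤ _ := mul_le_mul_of_nonneg_right hK1 h3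
  exact_mod_cast h2

end Pool.Agent.PSR10
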