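import Mathlib

/-!
# A covering lemma for hereditary families

`F` is a family of finite sets closed under subsets. If every subset `E` of the finite set `V` dominates at most `(K/2)|E|` elements
(`x` is dominated by `E` if `x ∈ E` or `N \ {x} ⊆ E` for some minimal non-member `N ∋ x`) then `V` is a union of `K` members of `F`.
The argument is of the type of Haxell's theorem on independent transversals.
-/

set_option autoImplicit false

namespace Pool.Agent.PSR10

open Finset

variable {ι : Type*} [DecidableEq ι]

/-- Minimal non-members of the family. -/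
def Mn (F : Finset ι → Prop) (N : Finset ι) : Prop := ¬ F N ∧ ∀ x ∈ N, F (N.erase x)

open Classical in
/-- The part of `V` dominated by `E`. -/
noncomputable def dom (F : Finset ι → Prop) (V E : Finset ι) : Finset ι :=
  V.filter (fun x => x ∈ E ∨ ∃ N, N ⊆ V ∧ Mn F N ∧ x ∈ N ∧ N.erase x ⊆ E)

lemma dom_mono {F : Finset ι → Prop} {V W E : Finset ι} (h : V ⊆ W) : dom F V E ⊆ dom F W E := by
  classical
  intro x hx
  simp only [dom, mem_filter] at hx ⊢
  refine ⟨h hx.1, ?_⟩
  rcases hx.2 with h1 | ⟨N, h1, h2⟩
  · exact Or.inl h1
  · exact Or.inr ⟨N, h1.trans h, h2⟩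

lemma exists_mn {F : Finset ι → Prop} (A : Finset ι) (hA : ¬ F A) :
    ∃ N, N ⊆ A ∧ Mn F N := by
  classical
  induction A using Finset.strongInduction with
  | H A ih =>
    by_cases h : ∀ x ∈ A, F (A.erase x)
    · exact ⟨A, Subset.refl _, hA, h⟩
    · push Not at h
      obtain ⟨x, hx, hxA⟩ := h
      obtain ⟨N, h1, h2⟩ := ih (A.erase x) (erase_ssubset hx) hxA
      exact ⟨N, h1.trans (erase_subset _ _), h2⟩

section Step

variable (F : Finset ι → Prop) (V : Finset ι) (v0 : ι) (K : ℕ)

/-- Colour classes on `V \ {v0}`. -/
def cls (f : ι → Fin K) (i : Fin K) : Finset ι := (V.erase v0).filter (fun x => f x = i)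

open Classical in
/-- The sets `A` in colour `i` (or in `E i`) which prevent `u` from being recoloured by `i`. -/
noncomputable def obs (E : Fin K → Finset ι) (f : ι → Fin K) (u : ι) (i : Fin K) : Finset (Finset ι) :=
  V.powerset.filter (fun A => A ⊆ E i ∪ cls V v0 K f i ∧ u ∉ A ∧ Mn F (insert u A))

/-- The states of the procedure. -/
structure State (P : Set (ι → Fin K)) (E : Fin K → Finset ι) (B : Finset ι) : Prop where
  ne : P.Nonempty
  inv : ∀ f ∈ P, ∀ u ∈ B, ∀ i, u ∉ E i → (obs F V v0 K E f u i).Nonempty
  cl : ∀ f ∈ P, ∀ u ∈ V, u ∉ B → ∀ i, obs F V v0 K E f u i = ∅ → Function.update f u i ∈ P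
  col : ∀ f ∈ P, ∀ i, ∀ y ∈ B, y ≠ v0 → f y = i → y ∈ E i
  mem : v0 ∈ B
  sub : B ⊆ V
  subE : ∀ i, E i ⊆ B
  card : ∑ i, (E i).card + 2 ≤ 2 * B.card

variable {F V v0 K}

lemma obs_mono {E E' : Fin K → Finset ι} (h : ∀ i, E i ⊆ E' i) (f : ι → Fin K) (u : ι) (i : Fin K)
    (h0 : obs F V v0 K E' f u i = ∅) : obs F V v0 K E f u i = ∅ := by
  classical
  rw [Finset.eq_empty_iff_forall_notMem] at h0 ⊢
  intro A hA
  apply h0 A
  simp only [obs, mem_filter] at hA ⊢
  exact ⟨hA.1, hA.2.1.trans (union_subset_union (h i) (Subset.refl _)), hA.2.2⟩

lemma step (hdom : ∀ E, E ⊆ V → 2 * (dom F V E).card ≤ K * E.card) (hK : 0 < K)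
    {P : Set (ι → Fin K)} {E : Fin K → Finset ι} {B : Finset ι} (S : State F V v0 K P E B) :
    ∃ P' E' B', State F V v0 K P' E' B' ∧ B.card < B'.card := by
  classical
  -- choice of the pair (u,i)
  have hsum : ∑ i : Fin K, (dom F V (E i)).card < ∑ _i : Fin K, B.card := by
    have h1 : 2 * ∑ i : Fin K, (dom F V (E i)).card ≤ K * ∑ i : Fin K, (E i).card := by
      rw [mul_sum, mul_sum]
      exact sum_le_sum (fun i _ => hdom (E i) ((S.subE i).trans S.sub))
    have h2 : K * (∑ i : Fin K, (E i).card + 2) ≤ K * (2 * B.card) := Nat.mul_le_mul_left _ S.card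
    have h3 : ∑ _i : Fin K, B.card = K * B.card := by simp
    rw [h3]
    have h4 : K * (∑ i : Fin K, (E i).card + 2) = K * ∑ i : Fin K, (E i).card + 2 * K := by ring
    have h5 : K * (2 * B.card) = 2 * (K * B.card) := by ring
    omega
  obtain ⟨i, -, hi⟩ := exists_lt_of_sum_lt hsum
  obtain ⟨u, huB, hud⟩ : ∃ u ∈ B, u ∉ dom F V (E i) := by
    by_contra hcon
    push Not at hcon
    exact absurd (card_le_card (fun x hx => hcon x hx)) (not_le.mpr hi)
  have huV : u ∈ V := S.sub huB
  have huE : u ∉ E i := by
    intro h
    exact hud (by simp only [dom, mem_filter]; exact ⟨huV, Or.inl h⟩)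
  -- minimal colouring
  obtain ⟨g, hgP, hgmin⟩ := (measure (fun f : ι → Fin K => (obs F V v0 K E f u i).card)).wf.has_min P S.ne
  have hmin : ∀ f ∈ P, (obs F V v0 K E g u i).card ≤ (obs F V v0 K E f u i).card := by
    intro f hf
    have h0 : ¬ ((obs F V v0 K E f u i).card < (obs F V v0 K E g u i).card) := hgmin f hf
    exact not_lt.mp h0
  obtain ⟨A, hA⟩ := S.inv g hgP u huB i huE
  have hA' := hA
  simp only [obs, mem_filter, mem_powerset] at hA'
  obtain ⟨hAV, hAsub, huA, hAmn⟩ := hA'
  set Y : Finset ι := A \ E i with hY
  have hYne : Y.Nonempty := by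
    rw [Finset.nonempty_iff_ne_empty]
    intro h
    rw [hY, sdiff_eq_empty_iff_subset] at h
    apply hud
    simp only [dom, mem_filter]
    refine ⟨huV, Or.inr ⟨insert u A, insert_subset huV hAV, hAmn, mem_insert_self _ _, ?_⟩⟩
    rw [erase_insert huA]
    exact h
  have hYcls : ∀ y ∈ Y, y ∈ cls V v0 K g i := by
    intro y hy
    rw [hY, mem_sdiff] at hy
    have := hAsub hy.1
    rw [mem_union] at this
    exact this.resolve_left hy.2
  have hYB : Disjoint B Y := by
    rw [Finset.disjoint_left]
    intro y hyB hyY
    have h1 := hYcls y hyY
    simp only [cls, mem_filter, mem_erase] at h1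
    have h2 := S.col g hgP i y hyB h1.1.1 h1.2
    rw [hY, mem_sdiff] at hyY
    exact hyY.2 h2
  have hYV : Y ⊆ V := fun y hy => hAV (mem_sdiff.mp hy).1
  have hYv0 : ∀ y ∈ Y, y ≠ v0 := by
    intro y hy h
    exact (Finset.disjoint_left.mp hYB S.mem) (h ▸ hy)
  set E' : Fin K → Finset ι := Function.update E i (E i ∪ insert u Y) with hE'
  have hEE' : ∀ j, E j ⊆ E' j := by
    intro j
    by_cases hj : j = i
    · subst hj
      simp only [hE', Function.update_self]
      exact subset_union_left
    · simp only [hE', Function.update_of_ne hj]
      exact Subset.refl _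
  have hE'i : E' i = E i ∪ insert u Y := by simp [hE']
  set P' : Set (ι → Fin K) := {f | f ∈ P ∧ (obs F V v0 K E f u i).card = (obs F V v0 K E g u i).card ∧ ∀ y ∈ Y, f y = i} with hP'
  refine ⟨P', E', B ∪ Y, ?_, ?_⟩
  · constructor
    · refine ⟨g, hgP, rfl, ?_⟩
      intro y hy
      have := hYcls y hy
      simp only [cls, mem_filter] at this
      exact this.2
    · -- inv
      intro f hf u' hu' j hj
      rw [Finset.nonempty_iff_ne_empty]
      intro hempty
      have hempty' := obs_mono hEE' f u' j hempty
      obtain ⟨hfP, hfc, hfY⟩ := hf
      by_cases hu'B : u' ∈ B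
      · have h1 := S.inv f hfP u' hu'B j (fun h => hj (hEE' j h))
        rw [hempty'] at h1
        exact Finset.not_nonempty_empty h1
      · have hu'Y : u' ∈ Y := (mem_union.mp hu').resolve_left hu'B
        have hji : j ≠ i := by
          intro h
          apply hj
          rw [h, hE'i]
          exact mem_union_right _ (mem_insert_of_mem hu'Y)
        have hf' := S.cl f hfP u' (hYV hu'Y) hu'B j hempty'
        have hlt : (obs F V v0 K E (Function.update f u' j) u i).card < (obs F V v0 K E f u i).card := by
          apply card_lt_card
          rw [Finset.ssubset_iff_subset_ne]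
          have hcls : cls V v0 K (Function.update f u' j) i ⊆ cls V v0 K f i := by
            intro x hx
            simp only [cls, mem_filter] at hx ⊢
            refine ⟨hx.1, ?_⟩
            by_cases hxu : x = u'
            · rw [hxu, Function.update_self] at hx
              exact absurd hx.2 hji
            · rw [Function.update_of_ne hxu] at hx
              exact hx.2
          constructor
          · intro A1 hA1
            simp only [obs, mem_filter] at hA1 ⊢
            exact ⟨hA1.1, hA1.2.1.trans (union_subset_union (Subset.refl _) hcls), hA1.2.2⟩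
          · intro heq
            have hAf : A ∈ obs F V v0 K E f u i := by
              simp only [obs, mem_filter, mem_powerset]
              refine ⟨hAV, ?_, huA, hAmn⟩
              intro a ha
              by_cases haE : a ∈ E i
              · exact mem_union_left _ haE
              · apply mem_union_right
                have haY : a ∈ Y := mem_sdiff.mpr ⟨ha, haE⟩
                simp only [cls, mem_filter, mem_erase]
                exact ⟨⟨hYv0 a haY, hAV ha⟩, hfY a haY⟩
            rw [← heq] at hAf
            simp only [obs, mem_filter] at hAf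
            have h2 := hAf.2.1 (mem_sdiff.mp hu'Y).1
            rw [mem_union] at h2
            rcases h2 with h2 | h2
            · exact (mem_sdiff.mp hu'Y).2 h2
            · simp only [cls, mem_filter, Function.update_self] at h2
              exact hji h2.2
        have := hmin _ hf'
        omega
    · -- cl
      intro f hf u' hu'V hu'B j hempty
      obtain ⟨hfP, hfc, hfY⟩ := hf
      rw [mem_union, not_or] at hu'B
      have hempty' := obs_mono hEE' f u' j hempty
      have hf' := S.cl f hfP u' hu'V hu'B.1 j hempty'
      refine ⟨hf', ?_, ?_⟩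
      · apply le_antisymm _ (hmin _ hf')
        rw [← hfc]
        apply card_le_card
        intro A1 hA1
        simp only [obs, mem_filter, mem_powerset] at hA1 ⊢
        refine ⟨hA1.1, ?_, hA1.2.2⟩
        by_contra hnot
        rw [Finset.not_subset] at hnot
        obtain ⟨a, haA1, ha⟩ := hnot
        rw [mem_union, not_or] at ha
        have h3 := (mem_union.mp (hA1.2.1 haA1)).resolve_left ha.1
        have hau : a = u' := by
          by_contra hne
          apply ha.2
          simp only [cls, mem_filter, Function.update_of_ne hne] at h3 ⊢
          exact h3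
        subst hau
        have hji : j = i := by
          simp only [cls, mem_filter, Function.update_self] at h3
          exact h3.2
        subst hji
        rw [Finset.eq_empty_iff_forall_notMem] at hempty
        apply hempty ((insert u A1).erase a)
        simp only [obs, mem_filter, mem_powerset]
        refine ⟨?_, ?_, ?_, ?_⟩
        · intro x hx
          rw [mem_erase, mem_insert] at hx
          rcases hx.2 with h | h
          · rw [h]; exact huV
          · exact hA1.1 h
        · intro x hx
          rw [mem_erase, mem_insert] at hx
          rcases hx.2 with h | h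
          · rw [h, hE'i]
            exact mem_union_left _ (mem_union_right _ (mem_insert_self _ _))
          · rcases mem_union.mp (hA1.2.1 h) with h4 | h4
            · exact mem_union_left _ (hEE' _ h4)
            · apply mem_union_right
              simp only [cls, mem_filter, Function.update_of_ne hx.1] at h4 ⊢
              exact h4
        · exact notMem_erase _ _
        · rw [insert_erase (mem_insert_of_mem haA1)]
          exact hA1.2.2.2
      · intro y hy
        have : y ≠ u' := fun h => hu'B.2 (h ▸ hy)
        rw [Function.update_of_ne this]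
        exact hfY y hy
    · -- col
      intro f hf j y hy hyv hfy
      obtain ⟨hfP, hfc, hfY⟩ := hf
      rcases mem_union.mp hy with h | h
      · exact hEE' j (S.col f hfP j y h hyv hfy)
      · have h1 := hfY y h
        have : j = i := by rw [← hfy, h1]
        rw [this, hE'i]
        exact mem_union_right _ (mem_insert_of_mem h)
    · exact mem_union_left _ S.mem
    · exact union_subset S.sub hYV
    · intro j
      by_cases hj : j = i
      · rw [hj, hE'i]
        apply union_subset ((S.subE i).trans subset_union_left)
        exact insert_subset (mem_union_left _ huB) subset_union_right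
      · simp only [hE', Function.update_of_ne hj]
        exact (S.subE j).trans subset_union_left
    · have h1 : ∑ j, (E' j).card ≤ ∑ j, (E j).card + (1 + Y.card) := by
        have h2 : ∀ j, (E' j).card ≤ (E j).card + (if j = i then 1 + Y.card else 0) := by
          intro j
          by_cases hj : j = i
          · rw [hj, hE'i, if_pos rfl]
            calc (E i ∪ insert u Y).card ≤ (E i).card + (insert u Y).card := card_union_le _ _
              _ ≤ (E i).card + (1 + Y.card) := by
                have := card_insert_le u Y
                omega
          · simp [hE', hj]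
        calc ∑ j, (E' j).card ≤ ∑ j, ((E j).card + (if j = i then 1 + Y.card else 0)) := sum_le_sum (fun j _ => h2 j)
          _ = ∑ j, (E j).card + (1 + Y.card) := by rw [sum_add_distrib]; simp
      have h3 := S.card
      have h4 : (B ∪ Y).card = B.card + Y.card := card_union_of_disjoint hYB
      have h5 : 1 ≤ Y.card := hYne.card_pos
      omega
  · have h4 : (B ∪ Y).card = B.card + Y.card := card_union_of_disjoint hYB
    have h5 : 1 ≤ Y.card := hYne.card_pos
    omega

end Step

/-- A finite set all whose subsets `E` dominate at most `(K/2)|E|` elements is a union of `K` members of the family. -/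
theorem cover (F : Finset ι → Prop) (hF : ∀ A B : Finset ι, A ⊆ B → F B → F A) (hF0 : F ∅) (K : ℕ) (hK : 0 < K)
    (V : Finset ι) (hdom : ∀ E, E ⊆ V → 2 * (dom F V E).card ≤ K * E.card) :
    ∃ f : ι → Fin K, ∀ i, F (V.filter (fun x => f x = i)) := by
  classical
  induction V using Finset.induction_on with
  | empty => exact ⟨fun _ => ⟨0, hK⟩, fun i => by simpa using hF0⟩
  | insert v0 V hv0 ih =>
    have h1 : ∀ E, E ⊆ V → 2 * (dom F V E).card ≤ K * E.card := by
      intro E hE
      refine le_trans ?_ (hdom E (hE.trans (subset_insert _ _)))
      exact Nat.mul_le_mul_left _ (card_le_card (dom_mono (subset_insert _ _)))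
    obtain ⟨f0, hf0⟩ := ih h1
    by_contra hcon
    push Not at hcon
    have hproper : ∀ (f : ι → Fin K) (u : ι) (i : Fin K), (∀ j, F (((insert v0 V).erase v0).filter (fun x => f x = j))) →
        obs F (insert v0 V) v0 K (fun _ => ∅) f u i = ∅ → ∀ (W : Finset ι), W ⊆ insert v0 V → (∀ x ∈ W, x ≠ u → x ≠ v0) →
        ∀ j, F (W.filter (fun x => Function.update f u i x = j)) := by
      intro f u i hf hobs W hW hWu j
      by_contra hnot
      obtain ⟨N, hN1, hN2⟩ := exists_mn _ hnot
      have huN : u ∈ N := by
        by_contra huN
        apply hN2.1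
        apply hF _ _ _ (hf j)
        intro x hx
        have hx1 := hN1 hx
        have hxu : x ≠ u := fun h => huN (h ▸ hx)
        simp only [mem_filter, Function.update_of_ne hxu] at hx1
        simp only [mem_filter, mem_erase]
        exact ⟨⟨hWu x hx1.1 hxu, hW hx1.1⟩, hx1.2⟩
      have hji : i = j := by
        have := hN1 huN
        simp only [mem_filter, Function.update_self] at this
        exact this.2
      subst hji
      rw [Finset.eq_empty_iff_forall_notMem] at hobs
      apply hobs (N.erase u)
      simp only [obs, mem_filter, mem_powerset]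
      refine ⟨?_, ?_, notMem_erase _ _, ?_⟩
      · intro x hx
        have := hN1 (mem_of_mem_erase hx)
        rw [mem_filter] at this
        exact hW this.1
      · intro x hx
        have hxu := ne_of_mem_erase hx
        have := hN1 (mem_of_mem_erase hx)
        simp only [mem_filter, Function.update_of_ne hxu] at this
        apply mem_union_right
        simp only [cls, mem_filter, mem_erase]
        exact ⟨⟨hWu x this.1 hxu, hW this.1⟩, this.2⟩
      · rw [insert_erase huN]
        exact hN2
    have hinit : State F (insert v0 V) v0 K {f | ∀ j, F (((insert v0 V).erase v0).filter (fun x => f x = j))} (fun _ => ∅) {v0} := by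
      constructor
      · refine ⟨f0, ?_⟩
        intro j
        rw [erase_insert hv0]
        exact hf0 j
      · intro f hf u hu i _
        rw [mem_singleton] at hu
        subst hu
        rw [Finset.nonempty_iff_ne_empty]
        intro hobs
        obtain ⟨j, hj⟩ := hcon (Function.update f u i)
        exact hj (hproper f u i hf hobs _ (Subset.refl _) (fun x _ h => h) j)
      · intro f hf u hu huB i hobs j
        apply hproper f u i hf hobs
        · exact erase_subset _ _
        · intro x hx _
          exact ne_of_mem_erase hx
      · intro f _ i y hy hyv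
        rw [mem_singleton] at hy
        exact absurd hy hyv
      · exact mem_singleton_self _
      · intro x hx
        rw [mem_singleton] at hx
        rw [hx]
        exact mem_insert_self _ _
      · intro i
        exact empty_subset _
      · simp
    have hall : ∀ n : ℕ, ∃ P E B, State F (insert v0 V) v0 K P E B ∧ n ≤ B.card := by
      intro n
      induction n with
      | zero => exact ⟨_, _, _, hinit, Nat.zero_le _⟩
      | succ n ihn =>
        obtain ⟨P, E, B, hS, hn⟩ := ihn
        obtain ⟨P', E', B', hS', hlt⟩ := step hdom hK hS
        exact ⟨P', E', B', hS', by omega⟩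
    obtain ⟨P, E, B, hS, hn⟩ := hall ((insert v0 V).card + 1)
    have := card_le_card hS.sub
    omega

end Pool.Agent.PSR10
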