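import Mathlib

/-!
# Entropy of sums in the group algebra

Elements of the group algebra with nonnegative coefficients are finite measures on the group `G`; multiplication is convolution.
`Ent p = ∑ p(g) log p(g)`, `J p q = ∑ p(g) log (q(g)/p(g))`. The window `U m x` is the sum of the point masses at `0, x, ..., (m-1)x`.
-/

set_option autoImplicit false
set_option linter.unusedSectionVars false

namespace Pool.Agent.PSR10

open Finset

section Basic

variable {G : Type*} [AddCommGroup G]

/-- Integral of a function against an element of the group algebra. -/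
noncomputable def integ (φ : G → ℝ) (p : AddMonoidAlgebra ℝ G) : ℝ := p.coeff.sum (fun g r => r * φ g)

lemma integ_zero (φ : G → ℝ) : integ φ 0 = 0 := by
  simp [integ]

lemma integ_add (φ : G → ℝ) (p q : AddMonoidAlgebra ℝ G) : integ φ (p + q) = integ φ p + integ φ q := by
  classical
  unfold integ
  rw [AddMonoidAlgebra.coeff_add]
  exact Finsupp.sum_add_index' (fun g => by simp) (fun g r s => by ring)

lemma integ_single (φ : G → ℝ) (g : G) (r : ℝ) : integ φ (AddMonoidAlgebra.single g r) = r * φ g := by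
  unfold integ
  rw [AddMonoidAlgebra.coeff_single]
  exact Finsupp.sum_single_index (by simp)

lemma integ_sum (φ : G → ℝ) {κ : Type*} (s : Finset κ) (p : κ → AddMonoidAlgebra ℝ G) :
    integ φ (∑ k ∈ s, p k) = ∑ k ∈ s, integ φ (p k) := by
  classical
  induction s using Finset.induction_on with
  | empty => simp [integ_zero]
  | insert a s ha ih => rw [sum_insert ha, sum_insert ha, integ_add, ih]

lemma integ_mul_single (φ : G → ℝ) (p : AddMonoidAlgebra ℝ G) (s : G) :
    integ φ (p * AddMonoidAlgebra.single s 1) = integ (fun h => φ (h + s)) p := by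
  induction p using AddMonoidAlgebra.induction_linear with
  | zero => simp [integ_zero]
  | add x y hx hy => rw [add_mul, integ_add, integ_add, hx, hy]
  | single m r => rw [AddMonoidAlgebra.single_mul_single, integ_single, integ_single, mul_one]

lemma integ_eq_sum (φ : G → ℝ) (p : AddMonoidAlgebra ℝ G) :
    integ φ p = ∑ g ∈ p.coeff.support, p.coeff g * φ g := rfl

/-- Nonnegative coefficients. -/
def Nng (p : AddMonoidAlgebra ℝ G) : Prop := ∀ g, 0 ≤ p.coeff g

lemma integ_mono {φ ψ : G → ℝ} {p : AddMonoidAlgebra ℝ G} (hp : Nng p) (h : ∀ g, 0 < p.coeff g → φ g ≤ ψ g) :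
    integ φ p ≤ integ ψ p := by
  rw [integ_eq_sum, integ_eq_sum]
  apply sum_le_sum
  intro g hg
  have h0 : 0 < p.coeff g := lt_of_le_of_ne (hp g) (Ne.symm (Finsupp.mem_support_iff.mp hg))
  exact mul_le_mul_of_nonneg_left (h g h0) h0.le

lemma integ_congr {φ ψ : G → ℝ} {p : AddMonoidAlgebra ℝ G} (hp : Nng p) (h : ∀ g, 0 < p.coeff g → φ g = ψ g) :
    integ φ p = integ ψ p :=
  le_antisymm (integ_mono hp (fun g hg => (h g hg).le)) (integ_mono hp (fun g hg => (h g hg).ge))

lemma integ_fun_add (φ ψ : G → ℝ) (p : AddMonoidAlgebra ℝ G) : integ (fun g => φ g + ψ g) p = integ φ p + integ ψ p := by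
  rw [integ_eq_sum, integ_eq_sum, integ_eq_sum, ← sum_add_distrib]
  exact sum_congr rfl (fun g _ => by ring)

lemma integ_fun_sub (φ ψ : G → ℝ) (p : AddMonoidAlgebra ℝ G) : integ (fun g => φ g - ψ g) p = integ φ p - integ ψ p := by
  rw [integ_eq_sum, integ_eq_sum, integ_eq_sum, ← sum_sub_distrib]
  exact sum_congr rfl (fun g _ => by ring)

lemma integ_fun_sum {κ : Type*} (s : Finset κ) (φ : κ → G → ℝ) (p : AddMonoidAlgebra ℝ G) :
    integ (fun g => ∑ k ∈ s, φ k g) p = ∑ k ∈ s, integ (φ k) p := by
  classical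
  induction s using Finset.induction_on with
  | empty => simp [integ_eq_sum]
  | insert a s ha ih =>
    rw [sum_insert ha, ← ih, ← integ_fun_add]
    congr 1
    funext g
    rw [sum_insert ha]

lemma integ_fun_mul_const (c : ℝ) (φ : G → ℝ) (p : AddMonoidAlgebra ℝ G) : integ (fun g => c * φ g) p = c * integ φ p := by
  rw [integ_eq_sum, integ_eq_sum, mul_sum]
  exact sum_congr rfl (fun g _ => by ring)

/-- Total mass. -/
noncomputable def tot (p : AddMonoidAlgebra ℝ G) : ℝ := integ (fun _ => 1) p

lemma integ_const (c : ℝ) (p : AddMonoidAlgebra ℝ G) : integ (fun _ => c) p = c * tot p := by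
  rw [tot, integ_eq_sum, integ_eq_sum, mul_sum]
  exact sum_congr rfl (fun g _ => by ring)

lemma tot_nonneg {p : AddMonoidAlgebra ℝ G} (hp : Nng p) : 0 ≤ tot p := by
  rw [tot, integ_eq_sum]
  exact sum_nonneg (fun g _ => by rw [mul_one]; exact hp g)

lemma coeff_mul_single' (p : AddMonoidAlgebra ℝ G) (s g : G) : (p * AddMonoidAlgebra.single s 1).coeff g = p.coeff (g - s) := by
  rw [AddMonoidAlgebra.coeff_mul_single_apply, mul_one, sub_eq_add_neg]

/-- The window. -/
noncomputable def U (m : ℕ) (x : G) : AddMonoidAlgebra ℝ G := ∑ j ∈ range m, AddMonoidAlgebra.single (j • x) 1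

lemma coeff_mul_U (p : AddMonoidAlgebra ℝ G) (m : ℕ) (x g : G) :
    (p * U m x).coeff g = ∑ j ∈ range m, p.coeff (g - j • x) := by
  rw [U, mul_sum, AddMonoidAlgebra.coeff_sum, Finsupp.finsetSum_apply]
  exact sum_congr rfl (fun j _ => coeff_mul_single' p _ g)

lemma integ_mul_U (φ : G → ℝ) (p : AddMonoidAlgebra ℝ G) (m : ℕ) (x : G) :
    integ φ (p * U m x) = ∑ j ∈ range m, integ (fun h => φ (h + j • x)) p := by
  rw [U, mul_sum, integ_sum]
  exact sum_congr rfl (fun j _ => integ_mul_single φ p _)

lemma tot_mul_U (p : AddMonoidAlgebra ℝ G) (m : ℕ) (x : G) : tot (p * U m x) = m * tot p := by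
  rw [tot, integ_mul_U]
  simp [tot]

lemma Nng.mul_U {p : AddMonoidAlgebra ℝ G} (hp : Nng p) (m : ℕ) (x : G) : Nng (p * U m x) := by
  intro g
  rw [coeff_mul_U]
  exact sum_nonneg (fun j _ => hp _)

lemma Nng.mul_single {p : AddMonoidAlgebra ℝ G} (hp : Nng p) (s : G) : Nng (p * AddMonoidAlgebra.single s 1) := by
  intro g
  rw [coeff_mul_single']
  exact hp _

lemma coeff_le_mul_U {p : AddMonoidAlgebra ℝ G} (hp : Nng p) {m : ℕ} {j : ℕ} (hj : j < m) (x h : G) :
    p.coeff h ≤ (p * U m x).coeff (h + j • x) := by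
  rw [coeff_mul_U]
  have := single_le_sum (f := fun i => p.coeff (h + j • x - i • x)) (fun i _ => hp _) (mem_range.mpr hj)
  simpa using this

/-- `J p q = ∑ p(g) log (q(g)/p(g))`. -/
noncomputable def J (p q : AddMonoidAlgebra ℝ G) : ℝ := integ (fun g => Real.log (q.coeff g / p.coeff g)) p

/-- `Ent p = ∑ p(g) log p(g)`. -/
noncomputable def Ent (p : AddMonoidAlgebra ℝ G) : ℝ := integ (fun g => Real.log (p.coeff g)) p

/-- Data processing. -/
lemma J_mul_U {p q : AddMonoidAlgebra ℝ G} (hp : Nng p) (hq : Nng q) (hpq : ∀ g, 0 < p.coeff g → 0 < q.coeff g)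
    (m : ℕ) (y : G) : m * J p q ≤ J (p * U m y) (q * U m y) := by
  classical
  set pz := p * U m y with hpz
  set qz := q * U m y with hqz
  have hpzn : Nng pz := hp.mul_U m y
  have hqzn : Nng qz := hq.mul_U m y
  set θ : G → ℝ := fun g => pz.coeff g / qz.coeff g with hθ
  have hθ0 : ∀ g, 0 ≤ θ g := fun g => div_nonneg (hpzn g) (hqzn g)
  have h1 : J pz qz - m * J p q = ∑ j ∈ range m, integ (fun h => Real.log (qz.coeff (h + j • y) / pz.coeff (h + j • y))
      - Real.log (q.coeff h / p.coeff h)) p := by
    have h2 : J pz qz = ∑ j ∈ range m, integ (fun h => Real.log (qz.coeff (h + j • y) / pz.coeff (h + j • y))) p := by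
      rw [J]
      conv_lhs => rw [hpz]
      rw [integ_mul_U]
    rw [h2, J]
    have h3 : (m : ℝ) * integ (fun g => Real.log (q.coeff g / p.coeff g)) p =
        ∑ j ∈ range m, integ (fun g => Real.log (q.coeff g / p.coeff g)) p := by simp
    rw [h3, ← sum_sub_distrib]
    exact sum_congr rfl (fun j _ => (integ_fun_sub _ _ p).symm)
  have h4 : ∀ j ∈ range m, tot p - integ (fun h => θ (h + j • y)) q ≤ integ (fun h => Real.log (qz.coeff (h + j • y) / pz.coeff (h + j • y))
      - Real.log (q.coeff h / p.coeff h)) p := by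
    intro j hj
    rw [mem_range] at hj
    have h5 : integ (fun h => 1 - (q.coeff h / p.coeff h) * θ (h + j • y)) p ≤ integ (fun h => Real.log (qz.coeff (h + j • y) / pz.coeff (h + j • y))
      - Real.log (q.coeff h / p.coeff h)) p := by
      apply integ_mono hp
      intro h hh
      have hqh := hpq h hh
      have hp1 : 0 < pz.coeff (h + j • y) := lt_of_lt_of_le hh (coeff_le_mul_U hp hj y h)
      have hq1 : 0 < qz.coeff (h + j • y) := lt_of_lt_of_le hqh (coeff_le_mul_U hq hj y h)
      have ha : 0 < qz.coeff (h + j • y) / pz.coeff (h + j • y) := div_pos hq1 hp1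
      have hb : 0 < q.coeff h / p.coeff h := div_pos hqh hh
      rw [← Real.log_div ha.ne' hb.ne']
      have h6 := Real.one_sub_inv_le_log_of_pos (div_pos ha hb)
      refine le_trans (le_of_eq ?_) h6
      rw [hθ]
      field_simp
    refine le_trans ?_ h5
    rw [integ_fun_sub (fun _ => 1)]
    have h7 : integ (fun h => (q.coeff h / p.coeff h) * θ (h + j • y)) p ≤ integ (fun h => θ (h + j • y)) q := by
      rw [integ_eq_sum, integ_eq_sum]
      have h8 : ∀ g ∈ p.coeff.support, p.coeff g * ((q.coeff g / p.coeff g) * θ (g + j • y)) = q.coeff g * θ (g + j • y) := by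
        intro g hg
        have : p.coeff g ≠ 0 := Finsupp.mem_support_iff.mp hg
        field_simp
      rw [sum_congr rfl h8]
      apply sum_le_sum_of_subset_of_nonneg
      · intro g hg
        have h0 : 0 < p.coeff g := lt_of_le_of_ne (hp g) (Ne.symm (Finsupp.mem_support_iff.mp hg))
        exact Finsupp.mem_support_iff.mpr (hpq g h0).ne'
      · intro g _ _
        exact mul_nonneg (hq g) (hθ0 _)
    have h9 : integ (fun _ => (1 : ℝ)) p = tot p := rfl
    rw [h9]
    linarith
  have h10 : ∑ j ∈ range m, integ (fun h => θ (h + j • y)) q ≤ m * tot p := by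
    rw [← integ_mul_U θ q m y, ← hqz, ← tot_mul_U p m y, ← hpz, tot, integ_eq_sum, integ_eq_sum]
    have h11 : ∀ g ∈ qz.coeff.support, qz.coeff g * θ g = pz.coeff g * 1 := by
      intro g hg
      have : qz.coeff g ≠ 0 := Finsupp.mem_support_iff.mp hg
      rw [hθ]
      field_simp
    rw [sum_congr rfl h11]
    have h12 : ∑ g ∈ qz.coeff.support, pz.coeff g * 1 ≤ ∑ g ∈ qz.coeff.support ∪ pz.coeff.support, pz.coeff g * 1 := by
      apply sum_le_sum_of_subset_of_nonneg subset_union_left
      intro g _ _
      rw [mul_one]; exact hpzn g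
    refine h12.trans (le_of_eq ?_)
    symm
    apply sum_subset subset_union_right
    intro g _ hg
    rw [Finsupp.notMem_support_iff.mp hg, zero_mul]
  have h13 : ∑ j ∈ range m, (tot p - integ (fun h => θ (h + j • y)) q) ≤ J pz qz - m * J p q := by
    rw [h1]
    exact sum_le_sum h4
  rw [sum_sub_distrib] at h13
  have h14 : ∑ _j ∈ range m, tot p = m * tot p := by simp
  rw [h14] at h13
  linarith

/-- The unnormalised loss. -/
noncomputable def Lam (m : ℕ) (x : G) (p : AddMonoidAlgebra ℝ G) : ℝ :=
  ∑ j ∈ range m, J p (p * U m x * AddMonoidAlgebra.single (-(j • x)) 1)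

lemma coeff_shift (p : AddMonoidAlgebra ℝ G) (m j : ℕ) (x h : G) :
    (p * U m x * AddMonoidAlgebra.single (-(j • x)) 1).coeff h = (p * U m x).coeff (h + j • x) := by
  rw [coeff_mul_single', sub_neg_eq_add]

lemma Lam_mul_U {p : AddMonoidAlgebra ℝ G} (hp : Nng p) (m m' : ℕ) (x y : G) :
    m' * Lam m x p ≤ Lam m x (p * U m' y) := by
  rw [Lam, Lam, mul_sum]
  apply sum_le_sum
  intro j hj
  rw [mem_range] at hj
  have h1 : p * U m' y * U m x * AddMonoidAlgebra.single (-(j • x)) 1 = (p * U m x * AddMonoidAlgebra.single (-(j • x)) 1) * U m' y := by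
    ring
  rw [h1]
  apply J_mul_U hp ((hp.mul_U m x).mul_single _)
  intro g hg
  rw [coeff_shift]
  exact lt_of_lt_of_le hg (coeff_le_mul_U hp hj x g)

lemma Ent_mul_U {p : AddMonoidAlgebra ℝ G} (hp : Nng p) (m : ℕ) (x : G) :
    Ent (p * U m x) = m * Ent p + Lam m x p := by
  have h1 : (m : ℝ) * Ent p = ∑ j ∈ range m, Ent p := by simp
  rw [h1, Lam, ← sum_add_distrib]
  conv_lhs => rw [Ent, integ_mul_U]
  apply sum_congr rfl
  intro j hj
  rw [mem_range] at hj
  rw [Ent, J, ← integ_fun_add]
  apply integ_congr hp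
  intro g hg
  rw [coeff_shift]
  have h2 : 0 < (p * U m x).coeff (g + j • x) := lt_of_lt_of_le hg (coeff_le_mul_U hp hj x g)
  rw [Real.log_div h2.ne' hg.ne']
  ring

/-- The two point quantity. -/
noncomputable def S (p : AddMonoidAlgebra ℝ G) (y : G) : ℝ := integ (fun h => Real.log (1 + p.coeff (h + y) / p.coeff h)) p

lemma Lam_two {p : AddMonoidAlgebra ℝ G} (hp : Nng p) (y : G) : Lam 2 y p = S p y + S p (-y) := by
  rw [Lam, sum_range_succ, sum_range_one, add_comm]
  congr 1
  · rw [J, S]
    apply integ_congr hp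
    intro g hg
    rw [coeff_shift, coeff_mul_U, sum_range_succ, sum_range_one]
    congr 1
    have h1 : g + 1 • y - 0 • y = g + y := by simp
    have h2 : g + 1 • y - 1 • y = g := by simp
    rw [h1, h2]
    field_simp
    ring
  · rw [J, S]
    apply integ_congr hp
    intro g hg
    rw [coeff_shift, coeff_mul_U, sum_range_succ, sum_range_one]
    congr 1
    have h1 : g + 0 • y - 0 • y = g := by simp
    have h2 : g + 0 • y - 1 • y = g + -y := by simp [sub_eq_add_neg]
    rw [h1, h2]
    field_simp

lemma one_add_sum_le_prod {κ : Type*} (s : Finset κ) (t : κ → ℝ) (ht : ∀ k ∈ s, 0 ≤ t k) :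
    1 + ∑ k ∈ s, t k ≤ ∏ k ∈ s, (1 + t k) := by
  classical
  induction s using Finset.induction_on with
  | empty => simp
  | insert a s ha ih =>
    rw [sum_insert ha, prod_insert ha]
    have h1 := ih (fun k hk => ht k (mem_insert_of_mem hk))
    have h2 := ht a (mem_insert_self _ _)
    have h3 : 0 ≤ ∑ k ∈ s, t k := sum_nonneg (fun k hk => ht k (mem_insert_of_mem hk))
    nlinarith

lemma log_one_add_sum_le {κ : Type*} (s : Finset κ) (t : κ → ℝ) (ht : ∀ k ∈ s, 0 ≤ t k) :
    Real.log (1 + ∑ k ∈ s, t k) ≤ ∑ k ∈ s, Real.log (1 + t k) := by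
  have h3 : 0 ≤ ∑ k ∈ s, t k := sum_nonneg ht
  rw [← Real.log_prod (fun k hk => by have := ht k hk; positivity)]
  exact Real.log_le_log (by linarith) (one_add_sum_le_prod s t ht)

lemma S_nonneg {p : AddMonoidAlgebra ℝ G} (hp : Nng p) (y : G) : 0 ≤ S p y := by
  have h1 : integ (fun _ => (0 : ℝ)) p ≤ S p y := by
    apply integ_mono hp
    intro g hg
    apply Real.log_nonneg
    have : 0 ≤ p.coeff (g + y) / p.coeff g := div_nonneg (hp _) hg.le
    linarith
  rw [integ_const] at h1
  linarith

lemma Lam_le {p : AddMonoidAlgebra ℝ G} (hp : Nng p) (m : ℕ) (x : G) :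
    Lam m x p ≤ m * ∑ k ∈ Ico 1 m, Lam 2 (k • x) p := by
  have h1 : ∀ j ∈ range m, J p (p * U m x * AddMonoidAlgebra.single (-(j • x)) 1) ≤ ∑ k ∈ Ico 1 m, Lam 2 (k • x) p := by
    intro j hj
    rw [mem_range] at hj
    have h2 : J p (p * U m x * AddMonoidAlgebra.single (-(j • x)) 1) ≤
        integ (fun g => ∑ i ∈ (range m).erase j, Real.log (1 + p.coeff (g + (j • x - i • x)) / p.coeff g)) p := by
      rw [J]
      apply integ_mono hp
      intro g hg
      rw [coeff_shift, coeff_mul_U]
      refine le_trans (le_of_eq ?_) (log_one_add_sum_le _ _ (fun i _ => div_nonneg (hp _) hg.le))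
      congr 1
      rw [← add_sum_erase _ _ (mem_range.mpr hj)]
      have h3 : g + j • x - j • x = g := by abel
      rw [h3, add_div, div_self hg.ne', sum_div]
      congr 1
      apply sum_congr rfl
      intro i _
      rw [add_sub_assoc]
    refine h2.trans ?_
    rw [integ_fun_sum]
    have h4 : ∀ i ∈ (range m).erase j, integ (fun g => Real.log (1 + p.coeff (g + (j • x - i • x)) / p.coeff g)) p
        = (if i < j then S p ((j - i) • x) else S p (-((i - j) • x))) := by
      intro i hi
      rw [mem_erase] at hi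
      split_ifs with hij
      · rw [S, sub_nsmul _ hij.le, sub_eq_add_neg]
      · have hji : j ≤ i := not_lt.mp hij
        have h7 : j • x - i • x = -((i - j) • x) := by
          rw [sub_nsmul _ hji]
          abel
        rw [S, h7]
    rw [sum_congr rfl h4]
    have h5 : ∑ k ∈ Ico 1 m, Lam 2 (k • x) p = ∑ k ∈ Ico 1 m, S p (k • x) + ∑ k ∈ Ico 1 m, S p (-(k • x)) := by
      rw [← sum_add_distrib]
      exact sum_congr rfl (fun k _ => Lam_two hp _)
    rw [h5]
    rw [← sum_filter_add_sum_filter_not _ (fun i => i < j)]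
    apply add_le_add
    · have h6 : ∑ i ∈ ((range m).erase j).filter (fun i => i < j), (if i < j then S p ((j - i) • x) else S p (-((i - j) • x)))
          = ∑ k ∈ (((range m).erase j).filter (fun i => i < j)).image (fun i => j - i), S p (k • x) := by
        rw [sum_image]
        · apply sum_congr rfl
          intro i hi
          rw [mem_filter] at hi
          rw [if_pos hi.2]
        · intro a ha b hb hab
          simp only [coe_filter, mem_erase, mem_range, Set.mem_ofPred_eq] at ha hb
          have : j - a = j - b := hab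
          omega
      rw [h6]
      apply sum_le_sum_of_subset_of_nonneg
      · intro k hk
        rw [mem_image] at hk
        obtain ⟨i, hi, rfl⟩ := hk
        simp only [mem_filter, mem_erase, mem_range] at hi
        rw [mem_Ico]
        omega
      · intro k _ _
        exact S_nonneg hp _
    · have h6 : ∑ i ∈ ((range m).erase j).filter (fun i => ¬ i < j), (if i < j then S p ((j - i) • x) else S p (-((i - j) • x)))
          = ∑ k ∈ (((range m).erase j).filter (fun i => ¬ i < j)).image (fun i => i - j), S p (-(k • x)) := by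
        rw [sum_image]
        · apply sum_congr rfl
          intro i hi
          rw [mem_filter] at hi
          rw [if_neg hi.2]
        · intro a ha b hb hab
          simp only [coe_filter, mem_erase, mem_range, Set.mem_ofPred_eq] at ha hb
          have : a - j = b - j := hab
          omega
      rw [h6]
      apply sum_le_sum_of_subset_of_nonneg
      · intro k hk
        rw [mem_image] at hk
        obtain ⟨i, hi, rfl⟩ := hk
        simp only [mem_filter, mem_erase, mem_range] at hi
        rw [mem_Ico]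
        omega
      · intro k _ _
        exact S_nonneg hp _
  calc Lam m x p ≤ ∑ _j ∈ range m, ∑ k ∈ Ico 1 m, Lam 2 (k • x) p := sum_le_sum h1
    _ = m * ∑ k ∈ Ico 1 m, Lam 2 (k • x) p := by simp

end Basic

end Pool.Agent.PSR10
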