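import Pool.Agent.PSR10.Cover
import Pool.Agent.PSR10.Ent

/-!
# Linear domination for the entropy family
-/

set_option autoImplicit false
set_option linter.unusedSectionVars false

namespace Pool.Agent.PSR10

open Finset

variable {G : Type*} [AddCommGroup G] {ι : Type*} [DecidableEq ι]

/-- A finite set of indices is independent if distinct subsets have distinct sums. -/
def Indep (b : ι → G) (A : Finset ι) : Prop :=
  ∀ s : Finset ι, s ⊆ A → ∀ t : Finset ι, t ⊆ A → ∑ i ∈ s, b i = ∑ i ∈ t, b i → s = t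

/-- The counting measure of the sums `∑ ξ_i b_i`, `0 ≤ ξ_i < m`. -/
noncomputable def PB (m : ℕ) (b : ι → G) (B : Finset ι) : AddMonoidAlgebra ℝ G := ∏ i ∈ B, U m (b i)

lemma one_nng : Nng (1 : AddMonoidAlgebra ℝ G) := by
  intro g
  classical
  rw [AddMonoidAlgebra.one_def, AddMonoidAlgebra.coeff_single, Finsupp.single_apply]
  split_ifs <;> norm_num

lemma nng_mul_prod {p : AddMonoidAlgebra ℝ G} (hp : Nng p) (m : ℕ) (c : ι → G) (C : Finset ι) :
    Nng (p * ∏ i ∈ C, U m (c i)) := by
  induction C using Finset.induction_on with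
  | empty => simpa using hp
  | insert a C ha ih =>
    rw [prod_insert ha, mul_comm (U m (c a)), ← mul_assoc]
    exact ih.mul_U m _

lemma nng_PB (m : ℕ) (b : ι → G) (B : Finset ι) : Nng (PB m b B) := by
  have := nng_mul_prod (one_nng (G := G)) m b B
  rwa [one_mul] at this

lemma tot_mul_prod (p : AddMonoidAlgebra ℝ G) (m : ℕ) (c : ι → G) (C : Finset ι) :
    tot (p * ∏ i ∈ C, U m (c i)) = (m : ℝ) ^ C.card * tot p := by
  induction C using Finset.induction_on with
  | empty => simp
  | insert a C ha ih =>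
    rw [prod_insert ha, mul_comm (U m (c a)), ← mul_assoc, tot_mul_U, ih, card_insert_of_notMem ha]
    ring

lemma tot_one : tot (1 : AddMonoidAlgebra ℝ G) = 1 := by
  rw [tot, AddMonoidAlgebra.one_def, integ_single]
  norm_num

lemma tot_PB (m : ℕ) (b : ι → G) (B : Finset ι) : tot (PB m b B) = (m : ℝ) ^ B.card := by
  have := tot_mul_prod (1 : AddMonoidAlgebra ℝ G) m b B
  rwa [one_mul, tot_one, mul_one] at this

/-- Coefficients are zero or at least one. -/
def Big (p : AddMonoidAlgebra ℝ G) : Prop := ∀ g, p.coeff g = 0 ∨ 1 ≤ p.coeff g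

lemma Big.nng {p : AddMonoidAlgebra ℝ G} (hp : Big p) : Nng p := by
  intro g
  rcases hp g with h | h
  · rw [h]
  · linarith

lemma Big.mul_U {p : AddMonoidAlgebra ℝ G} (hp : Big p) (m : ℕ) (x : G) : Big (p * U m x) := by
  intro g
  rw [coeff_mul_U]
  by_cases h : ∀ j ∈ range m, p.coeff (g - j • x) = 0
  · left
    exact sum_eq_zero h
  · right
    push Not at h
    obtain ⟨j, hj, hne⟩ := h
    have h1 := (hp (g - j • x)).resolve_left hne
    exact h1.trans (single_le_sum (f := fun j => p.coeff (g - j • x)) (fun i _ => hp.nng _) hj)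

lemma big_one : Big (1 : AddMonoidAlgebra ℝ G) := by
  intro g
  classical
  rw [AddMonoidAlgebra.one_def, AddMonoidAlgebra.coeff_single, Finsupp.single_apply]
  split_ifs
  · right; norm_num
  · left; rfl

lemma big_PB (m : ℕ) (b : ι → G) (B : Finset ι) : Big (PB m b B) := by
  induction B using Finset.induction_on with
  | empty => simpa [PB] using big_one
  | insert a C ha ih =>
    rw [PB, prod_insert ha, mul_comm]
    exact ih.mul_U m _

lemma Ent_nonneg {p : AddMonoidAlgebra ℝ G} (hp : Big p) : 0 ≤ Ent p := by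
  have h1 : integ (fun _ => (0 : ℝ)) p ≤ Ent p := by
    apply integ_mono hp.nng
    intro g hg
    exact Real.log_nonneg ((hp g).resolve_left hg.ne')
  rw [integ_const] at h1
  linarith

lemma Lam_mul_prod {p : AddMonoidAlgebra ℝ G} (hp : Nng p) (m0 m : ℕ) (x : G) (c : ι → G) (C : Finset ι) :
    (m : ℝ) ^ C.card * Lam m0 x p ≤ Lam m0 x (p * ∏ i ∈ C, U m (c i)) := by
  induction C using Finset.induction_on with
  | empty => simp
  | insert a C ha ih =>
    rw [prod_insert ha, mul_comm (U m (c a)), ← mul_assoc, card_insert_of_notMem ha]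
    refine le_trans ?_ (Lam_mul_U (nng_mul_prod hp m c C) m0 m x (c a))
    rw [pow_succ, mul_comm _ (m : ℝ), mul_assoc]
    exact mul_le_mul_of_nonneg_left ih (Nat.cast_nonneg _)

lemma coeff_mul_prod_le {w : AddMonoidAlgebra ℝ G} {M : ℝ} (hw : ∀ g, w.coeff g ≤ M) (m : ℕ) (c : ι → G) (C : Finset ι) :
    ∀ g, (w * ∏ i ∈ C, U m (c i)).coeff g ≤ (m : ℝ) ^ C.card * M := by
  induction C using Finset.induction_on with
  | empty => simpa using hw
  | insert a C ha ih =>
    intro g
    rw [prod_insert ha, mul_comm (U m (c a)), ← mul_assoc, card_insert_of_notMem ha, coeff_mul_U]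
    calc ∑ j ∈ range m, (w * ∏ i ∈ C, U m (c i)).coeff (g - j • c a) ≤ ∑ _j ∈ range m, (m : ℝ) ^ C.card * M :=
          sum_le_sum (fun j _ => ih _)
      _ = (m : ℝ) ^ (C.card + 1) * M := by
          rw [sum_const, card_range, nsmul_eq_mul]
          ring

lemma U_two (x : G) : U 2 x = 1 + AddMonoidAlgebra.single x 1 := by
  rw [U, sum_range_succ, sum_range_one, zero_nsmul, one_nsmul, AddMonoidAlgebra.one_def]

lemma prod_U_two (c : ι → G) (X : Finset ι) :
    ∏ i ∈ X, U 2 (c i) = ∑ s ∈ X.powerset, AddMonoidAlgebra.single (∑ i ∈ s, c i) (1 : ℝ) := by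
  simp_rw [U_two]
  rw [prod_one_add]
  apply sum_congr rfl
  intro s hs
  clear hs
  induction s using Finset.induction_on with
  | empty => simp [AddMonoidAlgebra.one_def]
  | insert a s ha ih => rw [prod_insert ha, ih, AddMonoidAlgebra.single_mul_single, sum_insert ha, mul_one]

lemma coeff_prod_U_two_le {c : ι → G} {X : Finset ι} (h : Indep c X) (g : G) : (∏ i ∈ X, U 2 (c i)).coeff g ≤ 1 := by
  classical
  rw [prod_U_two, AddMonoidAlgebra.coeff_sum, Finsupp.finsetSum_apply]
  simp_rw [AddMonoidAlgebra.coeff_single, Finsupp.single_apply]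
  rw [sum_ite, sum_const_zero, add_zero, sum_const, nsmul_eq_mul, mul_one]
  have : (X.powerset.filter (fun s => ∑ i ∈ s, c i = g)).card ≤ 1 := by
    rw [card_le_one]
    intro s hs t ht
    rw [mem_filter, mem_powerset] at hs ht
    exact h s hs.1 t ht.1 (hs.2.trans ht.2.symm)
  exact_mod_cast this

lemma Indep.smul [IsAddTorsionFree G] {b : ι → G} {X : Finset ι} (h : Indep b X) {k : ℕ} (hk : k ≠ 0) :
    Indep (fun i => k • b i) X := by
  intro s hs t ht hst
  apply h s hs t ht
  rw [← smul_sum, ← smul_sum] at hst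
  exact (nsmul_right_injective hk) hst

lemma Indep.mono {b : ι → G} {A B : Finset ι} (hAB : A ⊆ B) (h : Indep b B) : Indep b A :=
  fun s hs t ht hst => h s (hs.trans hAB) t (ht.trans hAB) hst

/-- An independent set all whose elements lose at least `c` is small. -/
lemma card_le_of_loss {b : ι → G} {m : ℕ} (hm : 1 ≤ m) (E X : Finset ι) (c : ι → G) (hX : Indep c X) {a : ℝ}
    (ha : ∀ x ∈ X, 2 * a * tot (PB m b E) ≤ Lam 2 (c x) (PB m b E)) :
    (X.card : ℝ) * a ≤ E.card * Real.log m := by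
  set p := PB m b E with hp
  have hpn : Nng p := nng_PB m b E
  have h1 : ∀ X' : Finset ι, X' ⊆ X → (X'.card : ℝ) * a * tot (p * ∏ i ∈ X', U 2 (c i)) ≤ Ent (p * ∏ i ∈ X', U 2 (c i)) := by
    intro X' hX'
    induction X' using Finset.induction_on with
    | empty =>
      simp only [card_empty, Nat.cast_zero, zero_mul, prod_empty, mul_one]
      exact Ent_nonneg (big_PB m b E)
    | insert x X' hx ih =>
      have ih' := ih ((subset_insert _ _).trans hX')
      rw [prod_insert hx, mul_comm (U 2 (c x)), ← mul_assoc, Ent_mul_U (nng_mul_prod hpn 2 c X'), tot_mul_U,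
        card_insert_of_notMem hx]
      have h2 := Lam_mul_prod hpn 2 2 (c x) c X'
      have h3 := ha x (hX' (mem_insert_self _ _))
      have h4 : (2 : ℝ) ^ X'.card * (2 * a * tot p) ≤ (2 : ℝ) ^ X'.card * Lam 2 (c x) p :=
        mul_le_mul_of_nonneg_left h3 (by positivity)
      have h5 : tot (p * ∏ i ∈ X', U 2 (c i)) = (2 : ℝ) ^ X'.card * tot p := by
        have := tot_mul_prod p 2 c X'
        exact_mod_cast this
      push_cast at h2 ⊢
      rw [h5] at ih' ⊢
      nlinarith
  have h2 : Ent (p * ∏ i ∈ X, U 2 (c i)) ≤ tot (p * ∏ i ∈ X, U 2 (c i)) * (E.card * Real.log m) := by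
    have h3 : Ent (p * ∏ i ∈ X, U 2 (c i)) ≤ integ (fun _ => (E.card * Real.log m)) (p * ∏ i ∈ X, U 2 (c i)) := by
      apply integ_mono (nng_mul_prod hpn 2 c X)
      intro g hg
      have h4 : (p * ∏ i ∈ X, U 2 (c i)).coeff g ≤ (m : ℝ) ^ E.card * 1 := by
        rw [mul_comm, hp, PB]
        exact coeff_mul_prod_le (coeff_prod_U_two_le hX) m b E g
      rw [mul_one] at h4
      calc Real.log ((p * ∏ i ∈ X, U 2 (c i)).coeff g) ≤ Real.log ((m : ℝ) ^ E.card) := Real.log_le_log hg h4
        _ = E.card * Real.log m := by rw [Real.log_pow]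
    rw [integ_const] at h3
    linarith
  have h3 := h1 X (Subset.refl _)
  have h4 : 0 < tot (p * ∏ i ∈ X, U 2 (c i)) := by
    rw [tot_mul_prod, hp, tot_PB]
    have : (0 : ℝ) < m := by exact_mod_cast hm
    positivity
  have h5 : (X.card : ℝ) * a * tot (p * ∏ i ∈ X, U 2 (c i)) ≤ (E.card * Real.log m) * tot (p * ∏ i ∈ X, U 2 (c i)) := by
    linarith
  exact le_of_mul_le_mul_right h5 h4

/-- The entropy family: for all subsets `A'` the average of the logarithm of the number of representations is at most `ε |A'| log m`. -/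
def Hf (ε : ℝ) (m : ℕ) (b : ι → G) (A : Finset ι) : Prop :=
  ∀ A' : Finset ι, A' ⊆ A → Ent (PB m b A') ≤ ε * A'.card * Real.log m * (m : ℝ) ^ A'.card

lemma Hf_mono {ε : ℝ} {m : ℕ} {b : ι → G} (A B : Finset ι) (h : A ⊆ B) (hB : Hf ε m b B) : Hf ε m b A :=
  fun A' hA' => hB A' (hA'.trans h)

lemma Hf_empty {ε : ℝ} {m : ℕ} {b : ι → G} : Hf ε m b ∅ := by
  intro A' hA'
  rw [subset_empty] at hA'
  subst hA'
  simp only [PB, prod_empty, card_empty, Nat.cast_zero, mul_zero, zero_mul]
  rw [Ent, AddMonoidAlgebra.one_def, integ_single]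
  simp

/-- In a minimal non-member every element has large loss. -/
lemma loss_of_mn {ε : ℝ} {m : ℕ} (hm : 1 ≤ m) {b : ι → G} {N : Finset ι} (hN : Mn (Hf ε m b) N) {x : ι} (hx : x ∈ N)
    {E : Finset ι} (hE : N.erase x ⊆ E) :
    ε * Real.log m * (m : ℝ) ^ (E.card + 1) ≤ Lam m (b x) (PB m b E) := by
  have h1 : ε * N.card * Real.log m * (m : ℝ) ^ N.card < Ent (PB m b N) := by
    by_contra hcon
    rw [not_lt] at hcon
    apply hN.1
    intro A' hA'
    by_cases hA : A' = N
    · rw [hA]; exact hcon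
    · obtain ⟨y, hy, hyA⟩ : ∃ y ∈ N, y ∉ A' := by
        by_contra hcon2
        push Not at hcon2
        exact hA (Subset.antisymm hA' hcon2)
      apply hN.2 y hy A'
      intro z hz
      rw [mem_erase]
      exact ⟨fun h => hyA (h ▸ hz), hA' hz⟩
  have h2 := hN.2 x hx (N.erase x) (Subset.refl _)
  have h3 : PB m b N = PB m b (N.erase x) * U m (b x) := by
    rw [PB, PB, mul_comm]
    exact (mul_prod_erase N (fun i => U m (b i)) hx).symm
  rw [h3, Ent_mul_U (nng_PB m b _)] at h1
  have hc : (N.erase x).card + 1 = N.card := card_erase_add_one hx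
  rw [← hc] at h1
  push_cast at h1
  have hm0 : (0 : ℝ) < m := by exact_mod_cast hm
  have h4 : ε * Real.log m * (m : ℝ) ^ ((N.erase x).card + 1) ≤ Lam m (b x) (PB m b (N.erase x)) := by
    have h5 := mul_le_mul_of_nonneg_left h2 hm0.le
    rw [pow_succ] at h1 ⊢
    nlinarith
  have h5 : PB m b E = PB m b (N.erase x) * ∏ i ∈ E \ N.erase x, U m (b i) := by
    rw [PB, PB, ← prod_union disjoint_sdiff, union_sdiff_of_subset hE]
  rw [h5]
  refine le_trans ?_ (Lam_mul_prod (nng_PB m b _) m m (b x) b (E \ N.erase x))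
  have h6 : (E \ N.erase x).card + (N.erase x).card = E.card := card_sdiff_add_card_eq_card hE
  have h7 : (m : ℝ) ^ (E.card + 1) = (m : ℝ) ^ (E \ N.erase x).card * (m : ℝ) ^ ((N.erase x).card + 1) := by
    rw [← pow_add]
    congr 1
    omega
  rw [h7]
  have h8 : 0 ≤ (m : ℝ) ^ (E \ N.erase x).card := by positivity
  calc ε * Real.log m * ((m : ℝ) ^ (E \ N.erase x).card * (m : ℝ) ^ ((N.erase x).card + 1))
      = (m : ℝ) ^ (E \ N.erase x).card * (ε * Real.log m * (m : ℝ) ^ ((N.erase x).card + 1)) := by ring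
    _ ≤ _ := mul_le_mul_of_nonneg_left h4 h8

/-- The proportional independence property. -/
def Prop' (δ : ℝ) (b : ι → G) (V : Finset ι) : Prop :=
  ∀ F : Finset ι, F ⊆ V → ∃ A : Finset ι, A ⊆ F ∧ δ * (F.card : ℝ) ≤ (A.card : ℝ) ∧ Indep b A

/-- Linear domination. -/
lemma dom_le [IsAddTorsionFree G] {δ ε : ℝ} (hδ : 0 < δ) (hε : 0 < ε) {m : ℕ} (hm : 2 ≤ m) {b : ι → G} {V : Finset ι}
    (hV : Prop' δ b V) {E : Finset ι} :
    ((dom (Hf ε m b) V E).card : ℝ) ≤ (1 + 2 * ((m : ℝ) - 1) ^ 2 / (ε * δ)) * E.card := by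
  classical
  have hm1 : (1 : ℝ) < m := by exact_mod_cast hm
  have hL : 0 < Real.log m := Real.log_pos hm1
  set p := PB m b E with hp
  set a : ℝ := ε * Real.log m / (2 * ((m : ℝ) - 1)) with ha
  have ha0 : 0 < a := by rw [ha]; apply div_pos (mul_pos hε hL); linarith
  set X : ℕ → Finset ι := fun k => V.filter (fun x => 2 * a * tot p ≤ Lam 2 (k • b x) p) with hX
  have hsub : dom (Hf ε m b) V E ⊆ E ∪ (Ico 1 m).biUnion X := by
    intro x hx
    simp only [dom, mem_filter] at hx
    obtain ⟨hxV, hx2⟩ := hx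
    rcases hx2 with h | ⟨N, hNV, hN, hxN, hNE⟩
    · exact mem_union_left _ h
    · apply mem_union_right
      rw [mem_biUnion]
      have h1 := loss_of_mn (by omega : 1 ≤ m) hN hxN hNE
      have h2 := h1.trans (Lam_le (nng_PB m b E) m (b x))
      by_contra hcon
      push Not at hcon
      have h3 : ∀ k ∈ Ico 1 m, Lam 2 (k • b x) (PB m b E) < 2 * a * tot p := by
        intro k hk
        have := hcon k hk
        simp only [hX, mem_filter, not_and, not_le] at this
        exact this hxV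
      have hne : (Ico 1 m).Nonempty := ⟨1, by rw [mem_Ico]; omega⟩
      have h4 := sum_lt_sum_of_nonempty hne h3
      rw [sum_const, Nat.card_Ico, nsmul_eq_mul, hp, tot_PB] at h4
      have h5 : ((m - 1 : ℕ) : ℝ) = (m : ℝ) - 1 := by push_cast [Nat.cast_sub (by omega : 1 ≤ m)]; ring
      rw [h5] at h4
      have h6 : ((m : ℝ) - 1) * (2 * a * (m : ℝ) ^ E.card) = ε * Real.log m * (m : ℝ) ^ E.card := by
        have : (m : ℝ) - 1 ≠ 0 := by linarith
        rw [ha]
        field_simp
      rw [h6] at h4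
      have h7 : (0 : ℝ) < m := by linarith
      have h8 := mul_lt_mul_of_pos_left h4 h7
      rw [pow_succ] at h2
      nlinarith
  have hXk : ∀ k ∈ Ico 1 m, ((X k).card : ℝ) ≤ 2 * ((m : ℝ) - 1) / (ε * δ) * E.card := by
    intro k hk
    rw [mem_Ico] at hk
    obtain ⟨A, hA1, hA2, hA3⟩ := hV (X k) (filter_subset _ _)
    have h1 := card_le_of_loss (by omega : 1 ≤ m) (b := b) E A (fun i => k • b i) (hA3.smul (by omega : k ≠ 0)) (a := a) (by
      intro x hx
      have := hA1 hx
      simp only [hX, mem_filter] at this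
      exact this.2)
    have h2 : δ * ((X k).card : ℝ) * a ≤ E.card * Real.log m := le_trans (mul_le_mul_of_nonneg_right hA2 ha0.le) h1
    have h3 : (X k).card * (δ * (ε * Real.log m)) ≤ E.card * Real.log m * (2 * ((m : ℝ) - 1)) := by
      have h4 : a * (2 * ((m : ℝ) - 1)) = ε * Real.log m := by
        rw [ha]
        have : (m : ℝ) - 1 ≠ 0 := by linarith
        field_simp
      have h5 := mul_le_mul_of_nonneg_right h2 (by linarith : (0 : ℝ) ≤ 2 * ((m : ℝ) - 1))
      calc (X k).card * (δ * (ε * Real.log m)) = δ * ((X k).card : ℝ) * (a * (2 * ((m : ℝ) - 1))) := by rw [h4]; ring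
        _ = δ * ((X k).card : ℝ) * a * (2 * ((m : ℝ) - 1)) := by ring
        _ ≤ _ := h5
    have h6 : ((X k).card : ℝ) * (ε * δ) ≤ 2 * ((m : ℝ) - 1) * E.card := by
      have h7 : ((X k).card : ℝ) * (ε * δ) * Real.log m ≤ 2 * ((m : ℝ) - 1) * E.card * Real.log m := by linarith
      exact le_of_mul_le_mul_right h7 hL
    rw [div_mul_eq_mul_div, le_div_iff₀ (mul_pos hε hδ)]
    exact h6
  have h1 : ((dom (Hf ε m b) V E).card : ℝ) ≤ (E.card : ℝ) + ∑ k ∈ Ico 1 m, ((X k).card : ℝ) := by
    have h2 : (dom (Hf ε m b) V E).card ≤ E.card + ∑ k ∈ Ico 1 m, (X k).card :=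
      (card_le_card hsub).trans ((card_union_le _ _).trans (Nat.add_le_add_left card_biUnion_le _))
    exact_mod_cast h2
  refine h1.trans ?_
  have h3 := sum_le_sum hXk
  rw [sum_const, Nat.card_Ico, nsmul_eq_mul] at h3
  have h5 : ((m - 1 : ℕ) : ℝ) = (m : ℝ) - 1 := by push_cast [Nat.cast_sub (by omega : 1 ≤ m)]; ring
  rw [h5] at h3
  have h6 : ((m : ℝ) - 1) * (2 * ((m : ℝ) - 1) / (ε * δ) * E.card) = 2 * ((m : ℝ) - 1) ^ 2 / (ε * δ) * E.card := by ring
  rw [h6] at h3
  linarith

end Pool.Agent.PSR10
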