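import Pool.Agent.PSR10.Near

/-!
# Amplification of proportional independence
-/

set_option autoImplicit false
set_option linter.unusedSectionVars false

namespace Pool.Agent.PSR10

open Finset

/-- Finite sets: colourings into classes of the entropy family. -/
theorem finite_cover {G : Type*} [AddCommGroup G] [IsAddTorsionFree G] {ι : Type*} [DecidableEq ι] {δ ε : ℝ} (hδ : 0 < δ) (hε : 0 < ε)
    {m K : ℕ} (hm : 2 ≤ m) (hK : 2 * (1 + 2 * ((m : ℝ) - 1) ^ 2 / (ε * δ)) ≤ K) (b : ι → G) (V : Finset ι) (hV : Prop' δ b V) :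
    ∃ f : ι → Fin K, ∀ i, Hf ε m b (V.filter (fun x => f x = i)) := by
  have hpos : 0 ≤ 2 * ((m : ℝ) - 1) ^ 2 / (ε * δ) := by positivity
  have hK0 : 0 < K := by
    have : (0 : ℝ) < K := by linarith
    exact_mod_cast this
  apply cover (Hf ε m b) (fun A B => Hf_mono A B) Hf_empty K hK0 V
  intro E _
  have h1 := dom_le hδ hε hm hV (E := E)
  have h2 : (2 : ℝ) * (dom (Hf ε m b) V E).card ≤ K * E.card := by
    have h3 : (0 : ℝ) ≤ E.card := Nat.cast_nonneg _
    calc (2 : ℝ) * (dom (Hf ε m b) V E).card ≤ 2 * ((1 + 2 * ((m : ℝ) - 1) ^ 2 / (ε * δ)) * E.card) := by linarith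
      _ = 2 * (1 + 2 * ((m : ℝ) - 1) ^ 2 / (ε * δ)) * E.card := by ring
      _ ≤ K * E.card := mul_le_mul_of_nonneg_right hK h3
  exact_mod_cast h2

/-- Compactness. -/
lemma compactness {K : ℕ} (Q : Finset ℕ → Prop) (hQ : ∀ A B : Finset ℕ, A ⊆ B → Q B → Q A)
    (h : ∀ n : ℕ, ∃ f : ℕ → Fin K, ∀ i, Q ((range n).filter (fun x => f x = i))) :
    ∃ f : ℕ → Fin K, ∀ i, ∀ F : Finset ℕ, (∀ x ∈ F, f x = i) → Q F := by
  choose f hf using h
  have h1 : ∀ x : ℕ, ∃ k : Fin K, (Filter.hyperfilter ℕ).map (fun n => f n x) = pure k := fun x => Ultrafilter.eq_pure_of_finite _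
  choose g hg using h1
  have h2 : ∀ x : ℕ, ∀ᶠ n in (Filter.hyperfilter ℕ : Filter ℕ), f n x = g x := by
    intro x
    have h3 : {k | k = g x} ∈ (Filter.hyperfilter ℕ).map (fun n => f n x) := by
      rw [hg x]
      exact Ultrafilter.mem_pure.mpr rfl
    exact h3
  refine ⟨g, ?_⟩
  intro i F hF
  have h3 : ∀ᶠ n in (Filter.hyperfilter ℕ : Filter ℕ), ∀ x ∈ F, f n x = g x := by
    rw [Filter.eventually_all_finset]
    intro x _
    exact h2 x
  have h4 : ∀ᶠ n in (Filter.hyperfilter ℕ : Filter ℕ), F.sup id < n := by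
    have : ∀ᶠ n in (Filter.atTop : Filter ℕ), F.sup id < n := Filter.eventually_gt_atTop _
    exact Nat.hyperfilter_le_atTop this
  obtain ⟨n, hn1, hn2⟩ := (h3.and h4).exists
  apply hQ _ _ _ (hf n i)
  intro x hx
  rw [mem_filter, mem_range]
  refine ⟨lt_of_le_of_lt (le_sup (f := id) hx) hn2, ?_⟩
  rw [hn1 x hx]
  exact hF x hx

/-- Amplification for sequences in a torsion free group. -/
theorem amplify {G : Type*} [AddCommGroup G] [IsAddTorsionFree G] {δ e : ℝ} (hδ : 0 < δ) (he : 0 < e) (he1 : e ≤ 1)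
    {m K : ℕ} (hm : 24 / e ≤ m) (hK : 2 * (1 + 2 * ((m : ℝ) - 1) ^ 2 / ((e ^ 2 / (72 * Real.log m)) * δ)) ≤ K)
    (b : ℕ → G) (hb : ∀ F : Finset ℕ, ∃ A : Finset ℕ, A ⊆ F ∧ δ * (F.card : ℝ) ≤ (A.card : ℝ) ∧ Indep b A) :
    ∃ f : ℕ → Fin K, ∀ i, ∀ F : Finset ℕ, (∀ x ∈ F, f x = i) →
      ∃ A : Finset ℕ, A ⊆ F ∧ (1 - e) * (F.card : ℝ) ≤ (A.card : ℝ) ∧ Indep b A := by
  have hm24 : (24 : ℝ) ≤ m := by
    refine le_trans ?_ hm
    rw [le_div_iff₀ he]
    linarith
  have hL : 0 < Real.log m := Real.log_pos (by linarith)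
  have hm2 : 2 ≤ m := by
    have : (2 : ℝ) ≤ m := by linarith
    exact_mod_cast this
  have hε : 0 < e ^ 2 / (72 * Real.log m) := by positivity
  obtain ⟨f, hf⟩ := compactness (K := K) (Hf (e ^ 2 / (72 * Real.log m)) m b) (fun A B => Hf_mono A B)
    (fun n => finite_cover hδ hε hm2 hK b (range n) (fun F _ => hb F))
  refine ⟨f, ?_⟩
  intro i F hF
  exact near b he he1 hm (hf i F hF)

/-- The arithmetic of the number of classes. -/
lemma exists_K {δ e : ℝ} (hδ : 0 < δ) (hδ1 : δ ≤ 1) (he : 0 < e) (he1 : e ≤ 1) :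
    ∃ m K : ℕ, 24 / e ≤ m ∧ 2 * (1 + 2 * ((m : ℝ) - 1) ^ 2 / ((e ^ 2 / (72 * Real.log m)) * δ)) ≤ K ∧
      (K : ℝ) ≤ 10 ^ 6 * Real.log (2 / e) / (δ * e ^ 4) := by
  set m : ℕ := ⌈24 / e⌉₊ with hm
  have h24 : (24 : ℝ) ≤ 24 / e := by rw [le_div_iff₀ he]; linarith
  have hm1 : 24 / e ≤ m := Nat.le_ceil _
  have hm2 : (m : ℝ) < 24 / e + 1 := Nat.ceil_lt_add_one (by positivity)
  have hm3 : (m : ℝ) ≤ 32 / e := by
    have : 32 / e = 24 / e + 8 / e := by ring
    have h8 : (8 : ℝ) ≤ 8 / e := by rw [le_div_iff₀ he]; linarith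
    linarith
  have hmpos : (0 : ℝ) < m := by linarith
  set L := Real.log (2 / e) with hLdef
  have hlog2 : Real.log 2 ≤ L := by
    apply Real.log_le_log (by norm_num)
    rw [le_div_iff₀ he]
    linarith
  have hlog2' : (0.6931471803 : ℝ) < Real.log 2 := Real.log_two_gt_d9
  have hLpos : 0 < L := by linarith
  have hlm : Real.log m ≤ 5 * L := by
    have h1 : Real.log m ≤ Real.log (32 / e) := Real.log_le_log hmpos hm3
    have h2 : Real.log (32 / e) = 4 * Real.log 2 + L := by
      rw [hLdef, ← Real.log_rpow (by norm_num), ← Real.log_mul (by positivity) (by positivity)]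
      congr 1
      norm_num
      ring
    linarith
  have hlmpos : 0 < Real.log m := Real.log_pos (by linarith)
  set X : ℝ := 2 * (1 + 2 * ((m : ℝ) - 1) ^ 2 / ((e ^ 2 / (72 * Real.log m)) * δ)) with hX
  refine ⟨m, ⌈X⌉₊, hm1, Nat.le_ceil _, ?_⟩
  have hX0 : 0 ≤ X := by
    rw [hX]
    positivity
  have h1 : ((⌈X⌉₊ : ℕ) : ℝ) < X + 1 := Nat.ceil_lt_add_one hX0
  have h2 : X ≤ 2 + 829440 * L / (δ * e ^ 4) := by
    have h3 : ((m : ℝ) - 1) ^ 2 ≤ (24 / e) ^ 2 := by
      apply pow_le_pow_left₀ (by linarith)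
      linarith
    have h4 : 2 * ((m : ℝ) - 1) ^ 2 / ((e ^ 2 / (72 * Real.log m)) * δ) = 144 * ((m : ℝ) - 1) ^ 2 * Real.log m / (e ^ 2 * δ) := by
      field_simp
      ring
    have h5 : 144 * ((m : ℝ) - 1) ^ 2 * Real.log m / (e ^ 2 * δ) ≤ 144 * (24 / e) ^ 2 * (5 * L) / (e ^ 2 * δ) := by
      apply div_le_div_of_nonneg_right _ (by positivity)
      apply mul_le_mul _ hlm hlmpos.le (by positivity)
      linarith
    have h6 : 144 * (24 / e) ^ 2 * (5 * L) / (e ^ 2 * δ) = 414720 * L / (δ * e ^ 4) := by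
      field_simp
      ring
    rw [hX, h4]
    rw [h6] at h5
    have h7 : 829440 * L / (δ * e ^ 4) = 2 * (414720 * L / (δ * e ^ 4)) := by ring
    rw [h7]
    linarith
  have h3 : 3 ≤ 10 * L / (δ * e ^ 4) := by
    rw [le_div_iff₀ (by positivity)]
    have h4 : e ^ 4 ≤ 1 := pow_le_one₀ he.le he1
    have h5 : δ * e ^ 4 ≤ 1 := by
      calc δ * e ^ 4 ≤ 1 * 1 := mul_le_mul hδ1 h4 (by positivity) (by norm_num)
        _ = 1 := by norm_num
    linarith
  have h4 : 10 ^ 6 * L / (δ * e ^ 4) = 829440 * L / (δ * e ^ 4) + 10 * L / (δ * e ^ 4) + 170550 * L / (δ * e ^ 4) := by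
    ring
  have h5 : 0 ≤ 170550 * L / (δ * e ^ 4) := by positivity
  linarith

/-- The statement of the problem of Pisier for one value of `δ`. -/
def PisierAt (δ : ℝ) : Prop :=
  ∃ K : ℕ, ∀ b : ℕ → ℤ, StrictMono b →
      (∀ F : Finset ℕ, ∃ A : Finset ℕ, A ⊆ F ∧ δ * (F.card : ℝ) ≤ (A.card : ℝ) ∧ Indep b A) →
      ∃ c : ℕ → Fin K, ∀ k : Fin K, ∀ F : Finset ℕ, (∀ i ∈ F, c i = k) → Indep b F

/-- From infinite sequences to finite sets. -/
lemma finite_of_infinite {δ : ℝ} (hδ1 : δ ≤ 1) {K : ℕ}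
    (hK : ∀ b : ℕ → ℤ, StrictMono b →
      (∀ F : Finset ℕ, ∃ A : Finset ℕ, A ⊆ F ∧ δ * (F.card : ℝ) ≤ (A.card : ℝ) ∧ Indep b A) →
      ∃ c : ℕ → Fin K, ∀ k : Fin K, ∀ F : Finset ℕ, (∀ i ∈ F, c i = k) → Indep b F)
    (b : ℕ → ℤ) (hb : StrictMono b) (V : Finset ℕ) (hV : Prop' δ b V) :
    ∃ c : ℕ → Fin K, ∀ k : Fin K, ∀ F : Finset ℕ, F ⊆ V → (∀ i ∈ F, c i = k) → Indep b F := by
  classical
  set N := V.card with hN
  set M : ℤ := 1 + 2 * ∑ i ∈ V, |b i| with hM
  have hMpos : 0 < M := by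
    have : 0 ≤ ∑ i ∈ V, |b i| := sum_nonneg (fun i _ => abs_nonneg _)
    linarith
  set en := V.orderEmbOfFin hN.symm with hen
  have henV : ∀ j, en j ∈ V := fun j => V.orderEmbOfFin_mem hN.symm j
  set b' : ℕ → ℤ := fun j => if h : j < N then b (en ⟨j, h⟩) else M * 2 ^ j with hb'
  have hlt : ∀ j (h : j < N), b' j = b (en ⟨j, h⟩) := fun j h => by rw [hb']; simp [h]
  have hge : ∀ j, ¬ j < N → b' j = M * 2 ^ j := fun j h => by rw [hb']; simp [h]
  have hbound : ∀ x ∈ V, b x < M := by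
    intro x hx
    have h1 : |b x| ≤ ∑ i ∈ V, |b i| := single_le_sum (f := fun i => |b i|) (fun i _ => abs_nonneg _) hx
    have h2 := le_abs_self (b x)
    have h3 := abs_nonneg (b x)
    linarith
  have hmono : StrictMono b' := by
    intro j j' hjj
    by_cases h : j < N
    · by_cases h' : j' < N
      · rw [hlt j h, hlt j' h']
        apply hb
        exact en.strictMono (show (⟨j, h⟩ : Fin N) < ⟨j', h'⟩ from hjj)
      · rw [hlt j h, hge j' h']
        have h1 := hbound _ (henV ⟨j, h⟩)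
        have h2 : (1 : ℤ) ≤ 2 ^ j' := one_le_pow₀ (by norm_num)
        nlinarith
    · have h' : ¬ j' < N := by omega
      rw [hge j h, hge j' h']
      have : (2 : ℤ) ^ j < 2 ^ j' := pow_lt_pow_right₀ (by norm_num) hjj
      exact mul_lt_mul_of_pos_left this hMpos
  -- transfer of finite sets
  set tr : Finset ℕ → Finset ℕ := fun S => (range N).filter (fun j => ∃ h : j < N, en ⟨j, h⟩ ∈ S) with htr
  have htr_sum : ∀ S, S ⊆ V → ∑ j ∈ tr S, b' j = ∑ i ∈ S, b i := by
    intro S hS
    symm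
    apply sum_bij' (i := fun i _ => if h : i ∈ V then ((V.orderIsoOfFin hN.symm).symm ⟨i, h⟩ : Fin N).val else 0)
      (j := fun j _ => if h : j < N then en ⟨j, h⟩ else 0)
    · intro i hi
      have hiV := hS hi
      simp only [hiV, dif_pos, htr, mem_filter, mem_range]
      refine ⟨Fin.is_lt _, Fin.is_lt _, ?_⟩
      have : en ((V.orderIsoOfFin hN.symm).symm ⟨i, hiV⟩) = i := by
        rw [hen, ← coe_orderIsoOfFin_apply]
        simp
      simpa [this] using hi
    · intro j hj
      simp only [htr, mem_filter, mem_range] at hj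
      obtain ⟨_, h, h2⟩ := hj
      simp only [h, dif_pos]
      exact h2
    · intro i hi
      have hiV := hS hi
      simp only [hiV, dif_pos, Fin.is_lt]
      have : en ((V.orderIsoOfFin hN.symm).symm ⟨i, hiV⟩) = i := by
        rw [hen, ← coe_orderIsoOfFin_apply]
        simp
      exact this
    · intro j hj
      simp only [htr, mem_filter, mem_range] at hj
      obtain ⟨_, h, h2⟩ := hj
      simp only [h, dif_pos, henV]
      have h3 : (⟨en ⟨j, h⟩, henV ⟨j, h⟩⟩ : V) = V.orderIsoOfFin hN.symm ⟨j, h⟩ := by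
        apply Subtype.ext
        rw [coe_orderIsoOfFin_apply]
      rw [h3, OrderIso.symm_apply_apply]
    · intro i hi
      have hiV := hS hi
      simp only [hiV, dif_pos]
      rw [hlt _ (Fin.is_lt _)]
      have : en ((V.orderIsoOfFin hN.symm).symm ⟨i, hiV⟩) = i := by
        rw [hen, ← coe_orderIsoOfFin_apply]
        simp
      exact congrArg b this.symm
  have htr_inj : ∀ S T, S ⊆ V → T ⊆ V → tr S = tr T → S = T := by
    have key : ∀ S T, S ⊆ V → tr S = tr T → S ⊆ T := by
      intro S T hS hST i hi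
      have hiV := hS hi
      set j := (V.orderIsoOfFin hN.symm).symm ⟨i, hiV⟩ with hj
      have hej : en j = i := by
        rw [hen, ← coe_orderIsoOfFin_apply, hj]
        simp
      have h1 : j.val ∈ tr S := by
        simp only [htr, mem_filter, mem_range]
        exact ⟨j.is_lt, j.is_lt, by rw [Fin.eta, hej]; exact hi⟩
      rw [hST] at h1
      simp only [htr, mem_filter, mem_range] at h1
      obtain ⟨_, h, h2⟩ := h1
      rw [Fin.eta, hej] at h2
      exact h2
    intro S T hS hT hST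
    exact Subset.antisymm (key S T hS hST) (key T S hT hST.symm)
  have hP : ∀ F : Finset ℕ, ∃ A : Finset ℕ, A ⊆ F ∧ δ * (F.card : ℝ) ≤ (A.card : ℝ) ∧ Indep b' A := by
    intro F
    set F1 := F.filter (fun j => j < N) with hF1
    set F2 := F.filter (fun j => ¬ j < N) with hF2
    set e2 : ℕ → ℕ := fun j => if h : j < N then en ⟨j, h⟩ else 0 with he2
    have he2inj : Set.InjOn e2 (F1 : Set ℕ) := by
      intro x hx y hy hxy
      rw [mem_coe, hF1, mem_filter] at hx hy
      simp only [he2, hx.2, hy.2, dif_pos] at hxy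
      have := en.injective hxy
      simpa using this
    obtain ⟨A, hA1, hA2, hA3⟩ := hV (F1.image e2) (by
      intro x hx
      rw [mem_image] at hx
      obtain ⟨j, hj, rfl⟩ := hx
      rw [hF1, mem_filter] at hj
      simp only [he2, hj.2, dif_pos]
      exact henV _)
    rw [card_image_of_injOn he2inj] at hA2
    set A1 := F1.filter (fun j => e2 j ∈ A) with hA1def
    have hA1card : A.card ≤ A1.card := by
      apply card_le_card_of_surjOn e2
      intro x hx
      have := hA1 hx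
      rw [mem_image] at this
      obtain ⟨j, hj, rfl⟩ := this
      exact ⟨j, mem_coe.mpr (mem_filter.mpr ⟨hj, hx⟩), rfl⟩
    refine ⟨A1 ∪ F2, ?_, ?_, ?_⟩
    · exact union_subset ((filter_subset _ _).trans (filter_subset _ _)) (filter_subset _ _)
    · have h1 : Disjoint A1 F2 := by
        rw [Finset.disjoint_left]
        intro x hx hx2
        rw [hA1def, mem_filter, hF1, mem_filter] at hx
        rw [hF2, mem_filter] at hx2
        exact hx2.2 hx.1.2
      rw [card_union_of_disjoint h1]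
      have h2 : F1.card + F2.card = F.card := by
        rw [hF1, hF2]
        exact card_filter_add_card_filter_not _
      rw [← h2]
      push_cast
      have h3 : (A.card : ℝ) ≤ A1.card := by exact_mod_cast hA1card
      have h4 : (0 : ℝ) ≤ F2.card := Nat.cast_nonneg _
      nlinarith
    · -- independence
      have hsplit : ∀ s : Finset ℕ, s ⊆ A1 ∪ F2 → ∃ S, S ⊆ A ∧ s.filter (fun j => j < N) = tr S ∧
          ∑ j ∈ s, b' j = ∑ i ∈ S, b i + M * ∑ j ∈ s.filter (fun j => ¬ j < N), 2 ^ j := by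
        intro s hs
        refine ⟨(s.filter (fun j => j < N)).image e2, ?_, ?_, ?_⟩
        · intro x hx
          rw [mem_image] at hx
          obtain ⟨j, hj, rfl⟩ := hx
          rw [mem_filter] at hj
          rcases mem_union.mp (hs hj.1) with h | h
          · exact (mem_filter.mp h).2
          · exact absurd hj.2 (mem_filter.mp h).2
        · ext j
          simp only [htr, mem_filter, mem_range, mem_image]
          constructor
          · rintro ⟨h1, h2⟩
            exact ⟨h2, h2, j, ⟨h1, h2⟩, by simp [he2, h2]⟩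
          · rintro ⟨h1, h2, j', ⟨h3, h4⟩, h5⟩
            simp only [he2, h4, dif_pos] at h5
            have := en.injective h5
            have h6 : j' = j := by simpa using this
            rw [← h6]
            exact ⟨h3, h4⟩
        · rw [← sum_filter_add_sum_filter_not s (fun j => j < N) b']
          congr 1
          · rw [sum_image]
            · apply sum_congr rfl
              intro j hj
              rw [mem_filter] at hj
              rw [hlt j hj.2]
              simp [he2, hj.2]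
            · intro x hx y hy hxy
              rw [mem_coe, mem_filter] at hx hy
              simp only [he2, hx.2, hy.2, dif_pos] at hxy
              have := en.injective hxy
              simpa using this
          · rw [mul_sum]
            apply sum_congr rfl
            intro j hj
            rw [mem_filter] at hj
            exact hge j hj.2
      have hAV : A ⊆ V := by
        intro x hx
        have := hA1 hx
        rw [mem_image] at this
        obtain ⟨j, hj, rfl⟩ := this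
        rw [hF1, mem_filter] at hj
        simp only [he2, hj.2, dif_pos]
        exact henV _
      intro s hs t ht hst
      obtain ⟨S, hS1, hS2, hS3⟩ := hsplit s hs
      obtain ⟨T, hT1, hT2, hT3⟩ := hsplit t ht
      rw [hS3, hT3] at hst
      have habs : ∀ W, W ⊆ A → |∑ i ∈ W, b i| ≤ ∑ i ∈ V, |b i| := by
        intro W hW
        exact (abs_sum_le_sum_abs _ _).trans (sum_le_sum_of_subset_of_nonneg (hW.trans hAV) (fun i _ _ => abs_nonneg _))
      have hpow : ∑ j ∈ s.filter (fun j => ¬ j < N), (2 : ℤ) ^ j = ∑ j ∈ t.filter (fun j => ¬ j < N), (2 : ℤ) ^ j := by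
        by_contra hne
        have h1 : 1 ≤ |∑ j ∈ s.filter (fun j => ¬ j < N), (2 : ℤ) ^ j - ∑ j ∈ t.filter (fun j => ¬ j < N), (2 : ℤ) ^ j| :=
          Int.one_le_abs (sub_ne_zero.mpr hne)
        have h2 : M * (∑ j ∈ s.filter (fun j => ¬ j < N), (2 : ℤ) ^ j - ∑ j ∈ t.filter (fun j => ¬ j < N), (2 : ℤ) ^ j) =
            ∑ i ∈ T, b i - ∑ i ∈ S, b i := by linarith
        have h3 : |M * (∑ j ∈ s.filter (fun j => ¬ j < N), (2 : ℤ) ^ j - ∑ j ∈ t.filter (fun j => ¬ j < N), (2 : ℤ) ^ j)| ≤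
            2 * ∑ i ∈ V, |b i| := by
          rw [h2]
          have h4 := abs_sub (∑ i ∈ T, b i) (∑ i ∈ S, b i)
          have h5 := habs T hT1
          have h6 := habs S hS1
          linarith
        rw [abs_mul, abs_of_pos hMpos] at h3
        nlinarith
      rw [hpow] at hst
      have h1 : ∑ i ∈ S, b i = ∑ i ∈ T, b i := add_right_cancel hst
      have h2 : S = T := hA3 S hS1 T hT1 h1
      have h3 : s.filter (fun j => j < N) = t.filter (fun j => j < N) := by rw [hS2, hT2, h2]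
      have h4 : s.filter (fun j => ¬ j < N) = t.filter (fun j => ¬ j < N) := by
        apply Finset.geomSum_injective (le_refl 2)
        have : ((∑ j ∈ s.filter (fun j => ¬ j < N), 2 ^ j : ℕ) : ℤ) = ((∑ j ∈ t.filter (fun j => ¬ j < N), 2 ^ j : ℕ) : ℤ) := by
          push_cast
          exact hpow
        exact_mod_cast this
      rw [← filter_union_filter_not_eq (fun j => j < N) s, ← filter_union_filter_not_eq (fun j => j < N) t, h3, h4]
  obtain ⟨c, hc⟩ := hK b' hmono hP
  refine ⟨fun i => if h : i ∈ V then c ((V.orderIsoOfFin hN.symm).symm ⟨i, h⟩ : Fin N).val else c 0, ?_⟩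
  intro k F hF hcol
  have hcolor : ∀ j ∈ tr F, c j = k := by
    intro j hj
    simp only [htr, mem_filter, mem_range] at hj
    obtain ⟨_, h, h2⟩ := hj
    have h3 := hcol _ h2
    simp only [henV, dif_pos] at h3
    have h4 : (⟨en ⟨j, h⟩, henV ⟨j, h⟩⟩ : V) = V.orderIsoOfFin hN.symm ⟨j, h⟩ := by
      apply Subtype.ext
      rw [coe_orderIsoOfFin_apply]
    rw [h4, OrderIso.symm_apply_apply] at h3
    exact h3
  have hind := hc k (tr F) hcolor
  intro s hs t ht hst
  apply htr_inj s t (hs.trans hF) (ht.trans hF)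
  have htrm : ∀ S, S ⊆ F → tr S ⊆ tr F := by
    intro S hS j hj
    simp only [htr, mem_filter, mem_range] at hj ⊢
    obtain ⟨h1, h, h2⟩ := hj
    exact ⟨h1, h, hS h2⟩
  apply hind (tr s) (htrm s hs) (tr t) (htrm t ht)
  rw [htr_sum s (hs.trans hF), htr_sum t (ht.trans hF), hst]

/-- The problem for one `δ0 < 1` implies the problem for all `δ`. -/
theorem reduction {δ0 : ℝ} (h0 : δ0 < 1) (hP : PisierAt δ0) {δ : ℝ} (hδ : 0 < δ) : PisierAt δ := by
  classical
  obtain ⟨K0, hK0⟩ := hP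
  set δ' := min δ 1 with hδ'
  have hδ'0 : 0 < δ' := lt_min hδ one_pos
  set e := min (1 - δ0) 1 with he
  have he0 : 0 < e := lt_min (by linarith) one_pos
  obtain ⟨m, K1, hm, hK1, -⟩ := exists_K hδ'0 (min_le_right _ _) he0 (min_le_right _ _)
  refine ⟨K1 * K0, ?_⟩
  intro b hb hbδ
  obtain ⟨f, hf⟩ := amplify hδ'0 he0 (min_le_right _ _) hm hK1 b (by
    intro F
    obtain ⟨A, h1, h2, h3⟩ := hbδ F
    exact ⟨A, h1, le_trans (mul_le_mul_of_nonneg_right (min_le_left _ _) (Nat.cast_nonneg _)) h2, h3⟩)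
  have hf' : ∀ (i : Fin K1) (V : Finset ℕ), (∀ x ∈ V, f x = i) → Prop' δ0 b V := by
    intro i V hV F hF
    obtain ⟨A, h1, h2, h3⟩ := hf i F (fun x hx => hV x (hF hx))
    refine ⟨A, h1, le_trans ?_ h2, h3⟩
    apply mul_le_mul_of_nonneg_right _ (Nat.cast_nonneg _)
    have := min_le_left (1 - δ0) 1
    linarith
  obtain ⟨g, hg⟩ := compactness (K := K1 * K0) (fun F => Indep b F) (fun A B h1 h2 => h2.mono h1) (by
    intro n
    have h1 : ∀ i : Fin K1, ∃ c : ℕ → Fin K0, ∀ k : Fin K0, ∀ F : Finset ℕ, F ⊆ (range n).filter (fun x => f x = i) → (∀ j ∈ F, c j = k) → Indep b F :=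
      fun i => finite_of_infinite h0.le hK0 b hb _ (hf' i _ (fun x hx => (mem_filter.mp hx).2))
    choose c hc using h1
    refine ⟨fun x => finProdFinEquiv (f x, c (f x) x), ?_⟩
    intro i
    apply hc (finProdFinEquiv.symm i).1 (finProdFinEquiv.symm i).2
    · intro x hx
      rw [mem_filter] at hx ⊢
      refine ⟨hx.1, ?_⟩
      rw [← hx.2, Equiv.symm_apply_apply]
    · intro x hx
      rw [mem_filter] at hx
      rw [← hx.2, Equiv.symm_apply_apply])
  exact ⟨g, hg⟩

end Pool.Agent.PSR10
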