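import Pool.Agent.PSR10.Round

/-!
# Almost maximal entropy implies an independent subset of proportion `1 - e`
-/

set_option autoImplicit false
set_option linter.unusedSectionVars false

namespace Pool.Agent.PSR10

open Finset

variable {G : Type*} [AddCommGroup G] {κ : Type*} [Fintype κ] [DecidableEq κ]

lemma fib_pos {c : κ → G} {m : ℕ} {ξ : κ → ℕ} (hξ : ξ ∈ box κ m) : 1 ≤ fib c m ξ := by
  classical
  rw [fib, Nat.one_le_iff_ne_zero, Ne, card_eq_zero, ← Ne, ← nonempty_iff_ne_empty]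
  exact ⟨ξ, by rw [mem_filter]; exact ⟨hξ, rfl⟩⟩

/-- The case of few elements. -/
lemma near_small (c : κ → G) {e : ℝ} (he : 0 < e) (he1 : e ≤ 1) {m : ℕ} (hm : 24 / e ≤ m)
    (h : ∑ ξ ∈ box κ m, Real.log (fib c m ξ) ≤ e ^ 2 / 72 * Fintype.card κ * (m : ℝ) ^ Fintype.card κ)
    (hN : (Fintype.card κ : ℝ) * e < 6) : Indep c univ := by
  classical
  set N := Fintype.card κ with hNdef
  have hm0 : (0 : ℝ) < m := lt_of_lt_of_le (by positivity) hm
  have hmN : 4 * (N : ℝ) ≤ m := by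
    have h1 : (N : ℝ) ≤ 6 / e := by rw [le_div_iff₀ he]; exact hN.le
    have h2 : 24 / e = 4 * (6 / e) := by ring
    linarith
  intro s _ t _ hst
  by_contra hne
  set q : Finset κ × Finset κ := (s \ t, t \ s) with hq
  have hqd : Disjoint q.1 q.2 := by
    rw [Finset.disjoint_left]
    intro x hx hx2
    exact (mem_sdiff.mp hx2).2 (mem_sdiff.mp hx).1
  have hqs : ∑ i ∈ q.1, c i = ∑ i ∈ q.2, c i := sum_sdiff_eq hst
  set good : Finset (κ → ℕ) := (box κ m).filter (fun ξ => univ \ intr m ξ = ∅) with hgood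
  have hfib : ∀ ξ ∈ good, Real.log 2 ≤ Real.log (fib c m ξ) := by
    intro ξ hξ
    rw [hgood, mem_filter] at hξ
    have hall : ∀ i, i ∈ intr m ξ := by
      intro i
      by_contra hi
      have : i ∈ univ \ intr m ξ := mem_sdiff.mpr ⟨mem_univ _, hi⟩
      rw [hξ.2] at this
      exact absurd this (notMem_empty _)
    have h2 : 2 ≤ (Rel c (intr m ξ)).card := by
      have h3 : ({(∅, ∅), q} : Finset (Finset κ × Finset κ)) ⊆ Rel c (intr m ξ) := by
        intro p hp
        rw [mem_insert, mem_singleton] at hp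
        rcases hp with hp | hp
        · rw [hp, mem_Rel]; simp
        · rw [hp, mem_Rel]
          exact ⟨fun i _ => hall i, fun i _ => hall i, hqd, hqs⟩
      have h4 : ((∅, ∅) : Finset κ × Finset κ) ≠ q := by
        intro h5
        rw [hq, Prod.mk.injEq] at h5
        apply hne
        exact Subset.antisymm (sdiff_eq_empty_iff_subset.mp h5.1.symm) (sdiff_eq_empty_iff_subset.mp h5.2.symm)
      have h5 := card_le_card h3
      rwa [card_pair h4] at h5
    have h3 := h2.trans (card_Rel_le hξ.1)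
    apply Real.log_le_log (by norm_num)
    exact_mod_cast h3
  have hbad : 2 * ((box κ m).filter (fun ξ => ¬ (univ \ intr m ξ = ∅))).card ≤ m ^ N := by
    have h1 : ((box κ m).filter (fun ξ => ¬ (univ \ intr m ξ = ∅))).card ≤ ∑ ξ ∈ box κ m, (univ \ intr m ξ).card := by
      rw [card_eq_sum_ones]
      calc ∑ ξ ∈ (box κ m).filter (fun ξ => ¬ (univ \ intr m ξ = ∅)), 1 ≤ ∑ ξ ∈ (box κ m).filter (fun ξ => ¬ (univ \ intr m ξ = ∅)), (univ \ intr m ξ).card := by
            apply sum_le_sum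
            intro ξ hξ
            rw [mem_filter] at hξ
            exact card_pos.mpr (nonempty_iff_ne_empty.mpr hξ.2)
        _ ≤ _ := sum_le_sum_of_subset (filter_subset _ _)
    have h2 := sum_boundary (κ := κ) m
    rw [← hNdef] at h2
    have h3 : (m : ℝ) * ((box κ m).filter (fun ξ => ¬ (univ \ intr m ξ = ∅))).card ≤ 2 * N * (m : ℝ) ^ N := by
      have h4 : m * ((box κ m).filter (fun ξ => ¬ (univ \ intr m ξ = ∅))).card ≤ 2 * N * m ^ N :=
        (Nat.mul_le_mul_left _ h1).trans h2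
      exact_mod_cast h4
    have h5 : (m : ℝ) * (2 * ((box κ m).filter (fun ξ => ¬ (univ \ intr m ξ = ∅))).card) ≤ m * (m : ℝ) ^ N := by
      have : 0 ≤ (m : ℝ) ^ N := by positivity
      nlinarith
    have h6 := le_of_mul_le_mul_left h5 hm0
    exact_mod_cast h6
  have hsplit := card_filter_add_card_filter_not (s := box κ m) (fun ξ => univ \ intr m ξ = ∅)
  rw [card_box, ← hNdef, ← hgood] at hsplit
  have hgc : (m : ℝ) ^ N ≤ 2 * good.card := by
    have : m ^ N ≤ 2 * good.card := by omega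
    exact_mod_cast this
  have h1 : (good.card : ℝ) * Real.log 2 ≤ ∑ ξ ∈ box κ m, Real.log (fib c m ξ) := by
    calc (good.card : ℝ) * Real.log 2 = ∑ _ξ ∈ good, Real.log 2 := by rw [sum_const, nsmul_eq_mul]
      _ ≤ ∑ ξ ∈ good, Real.log (fib c m ξ) := sum_le_sum hfib
      _ ≤ _ := by
        apply sum_le_sum_of_subset_of_nonneg (filter_subset _ _)
        intro ξ hξ _
        apply Real.log_nonneg
        exact_mod_cast fib_pos hξ
  have h2 := h1.trans h
  have hlog : (0.6931471803 : ℝ) < Real.log 2 := Real.log_two_gt_d9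
  have hpow : 0 < (m : ℝ) ^ N := by positivity
  have h3 : e ^ 2 / 72 * N ≤ 1 / 12 := by nlinarith
  have h4 : (good.card : ℝ) * Real.log 2 ≤ 1 / 12 * (m : ℝ) ^ N := by
    refine h2.trans ?_
    exact mul_le_mul_of_nonneg_right h3 hpow.le
  nlinarith

/-- The main case. -/
lemma near_large (c : κ → G) {e : ℝ} (he : 0 < e) (he1 : e ≤ 1) {m : ℕ} (hm : 24 / e ≤ m)
    (h : ∑ ξ ∈ box κ m, Real.log (fib c m ξ) ≤ e ^ 2 / 72 * Fintype.card κ * (m : ℝ) ^ Fintype.card κ)
    (hN : 6 ≤ (Fintype.card κ : ℝ) * e) : ∃ A : Finset κ, Indep c A ∧ (1 - e) * (Fintype.card κ : ℝ) ≤ A.card := by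
  classical
  set N := Fintype.card κ with hNdef
  have hm0 : (0 : ℝ) < m := lt_of_lt_of_le (by positivity) hm
  have hNpos : (0 : ℝ) < N := by
    by_contra hcon
    have : (N : ℝ) * e ≤ 0 := mul_nonpos_of_nonpos_of_nonneg (not_lt.mp hcon) he.le
    linarith
  have hpow : 0 < (m : ℝ) ^ N := by positivity
  -- choice of the point
  obtain ⟨ξ, hξ, hval⟩ : ∃ ξ ∈ box κ m, Real.log (fib c m ξ) / (e ^ 2 / 72 * N) + (m : ℝ) * (univ \ intr m ξ).card / (2 * N) ≤ 2 := by
    apply exists_le_of_sum_le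
    · rw [← card_pos, card_box]
      have : 0 < m := by exact_mod_cast hm0
      positivity
    · rw [sum_add_distrib, ← sum_div, ← sum_div, ← mul_sum, sum_const, card_box, nsmul_eq_mul, ← hNdef]
      have h1 : (∑ ξ ∈ box κ m, Real.log (fib c m ξ)) / (e ^ 2 / 72 * N) ≤ (m : ℝ) ^ N := by
        rw [div_le_iff₀ (by positivity)]
        linarith
      have h2 : (m : ℝ) * (∑ ξ ∈ box κ m, ((univ \ intr m ξ).card : ℝ)) / (2 * N) ≤ (m : ℝ) ^ N := by
        rw [div_le_iff₀ (by positivity)]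
        have h3 := sum_boundary (κ := κ) m
        rw [← hNdef] at h3
        have h4 : (m : ℝ) * (∑ ξ ∈ box κ m, ((univ \ intr m ξ).card : ℝ)) ≤ 2 * N * (m : ℝ) ^ N := by exact_mod_cast h3
        linarith
      push_cast
      linarith
  have hfib1 : (1 : ℝ) ≤ fib c m ξ := by exact_mod_cast fib_pos hξ
  have hlogn : 0 ≤ Real.log (fib c m ξ) := Real.log_nonneg hfib1
  have hv1 : Real.log (fib c m ξ) ≤ 2 * (e ^ 2 / 72 * N) := by
    have h1 : 0 ≤ (m : ℝ) * (univ \ intr m ξ).card / (2 * N) := by positivity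
    have h2 : Real.log (fib c m ξ) / (e ^ 2 / 72 * N) ≤ 2 := by linarith
    rwa [div_le_iff₀ (by positivity)] at h2
  have hv2 : ((univ \ intr m ξ).card : ℝ) ≤ N * e / 6 := by
    have h1 : 0 ≤ Real.log (fib c m ξ) / (e ^ 2 / 72 * N) := by positivity
    have h2 : (m : ℝ) * (univ \ intr m ξ).card / (2 * N) ≤ 2 := by linarith
    rw [div_le_iff₀ (by positivity)] at h2
    have h3 : 24 / e * (univ \ intr m ξ).card ≤ 2 * (2 * N) :=
      (mul_le_mul_of_nonneg_right hm (Nat.cast_nonneg _)).trans h2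
    rw [div_mul_eq_mul_div, div_le_iff₀ he] at h3
    linarith
  set I := intr m ξ with hI
  set n := I.card with hn
  have hnN : (n : ℝ) + (univ \ I).card = N := by
    have h1 := card_sdiff_add_card_eq_card (subset_univ I)
    rw [card_univ, ← hNdef] at h1
    have : n + (univ \ I).card = N := by omega
    exact_mod_cast this
  have hnN' : (n : ℝ) ≤ N := by
    have : (0 : ℝ) ≤ (univ \ I).card := Nat.cast_nonneg _
    linarith
  have hnpos : (0 : ℝ) < n := by nlinarith
  set r : ℕ := ⌊(N : ℝ) * e / 6⌋₊ + 1 with hr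
  have hr1 : (N : ℝ) * e / 6 < r := by
    rw [hr]; push_cast; exact Nat.lt_floor_add_one _
  have hr2 : (r : ℝ) ≤ N * e / 6 + 1 := by
    rw [hr]; push_cast
    have := Nat.floor_le (by positivity : 0 ≤ (N : ℝ) * e / 6)
    linarith
  set R : Finset (Finset κ) := ((Rel c I).image (fun q => q.1 ∪ q.2)).filter (fun S => r ≤ S.card) with hR
  have hRc : (R.card : ℝ) ≤ Real.exp (2 * (e ^ 2 / 72 * N)) := by
    have h1 : R.card ≤ fib c m ξ := ((card_filter_le _ _).trans card_image_le).trans (card_Rel_le hξ)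
    calc (R.card : ℝ) ≤ fib c m ξ := by exact_mod_cast h1
      _ = Real.exp (Real.log (fib c m ξ)) := (Real.exp_log (by linarith)).symm
      _ ≤ _ := Real.exp_le_exp.mpr hv1
  have hRsub : ∀ S ∈ R, S ⊆ I ∧ r ≤ S.card := by
    intro S hS
    rw [hR, mem_filter, mem_image] at hS
    obtain ⟨⟨q, hq, rfl⟩, h2⟩ := hS
    rw [mem_Rel] at hq
    exact ⟨union_subset hq.1 hq.2.1, h2⟩
  have hcount : R.card * (I.card - r) ^ r < I.card ^ r := by
    have h1 : (((I.card - r : ℕ) : ℝ)) ≤ n * Real.exp (-(r / n)) := by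
      by_cases hnr : r ≤ I.card
      · rw [Nat.cast_sub hnr, ← hn]
        have h2 := Real.one_sub_le_exp_neg ((r : ℝ) / n)
        have h3 : (n : ℝ) * (1 - r / n) = n - r := by field_simp
        rw [← h3]
        exact mul_le_mul_of_nonneg_left h2 hnpos.le
      · have : I.card - r = 0 := by omega
        rw [this]
        push_cast
        positivity
    have h2 : (((I.card - r : ℕ) : ℝ)) ^ r ≤ (n : ℝ) ^ r * Real.exp (-((r : ℝ) ^ 2 / n)) := by
      calc (((I.card - r : ℕ) : ℝ)) ^ r ≤ (n * Real.exp (-(r / n))) ^ r := pow_le_pow_left₀ (Nat.cast_nonneg _) h1 _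
        _ = (n : ℝ) ^ r * Real.exp (-((r : ℝ) ^ 2 / n)) := by
          rw [mul_pow, ← Real.exp_nat_mul]
          congr 2
          field_simp
    have h3 : (R.card : ℝ) * (((I.card - r : ℕ) : ℝ)) ^ r < (n : ℝ) ^ r := by
      have h4 : (R.card : ℝ) * (((I.card - r : ℕ) : ℝ)) ^ r ≤ Real.exp (2 * (e ^ 2 / 72 * N)) * ((n : ℝ) ^ r * Real.exp (-((r : ℝ) ^ 2 / n))) := by
        apply mul_le_mul hRc h2 (by positivity) (Real.exp_pos _).le
      have h5 : Real.exp (2 * (e ^ 2 / 72 * N)) * ((n : ℝ) ^ r * Real.exp (-((r : ℝ) ^ 2 / n))) =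
          (n : ℝ) ^ r * Real.exp (2 * (e ^ 2 / 72 * N) - (r : ℝ) ^ 2 / n) := by
        rw [sub_eq_add_neg, Real.exp_add]
        ring
      rw [h5] at h4
      have h6 : 2 * (e ^ 2 / 72 * N) - (r : ℝ) ^ 2 / n < 0 := by
        have h7 : (r : ℝ) ^ 2 / N ≤ (r : ℝ) ^ 2 / n := div_le_div_of_nonneg_left (by positivity) hnpos hnN'
        have h8 : 2 * (e ^ 2 / 72 * N) < (r : ℝ) ^ 2 / N := by
          rw [lt_div_iff₀ hNpos]
          have h9 : 0 < (N : ℝ) * e / 6 := by positivity
          have h10 : ((N : ℝ) * e / 6) ^ 2 < (r : ℝ) ^ 2 := pow_lt_pow_left₀ hr1 h9.le (by norm_num)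
          nlinarith
        linarith
      have h7 : Real.exp (2 * (e ^ 2 / 72 * N) - (r : ℝ) ^ 2 / n) < 1 := by
        rw [Real.exp_lt_one_iff]; exact h6
      have h8 : (n : ℝ) ^ r * Real.exp (2 * (e ^ 2 / 72 * N) - (r : ℝ) ^ 2 / n) < (n : ℝ) ^ r * 1 :=
        mul_lt_mul_of_pos_left h7 (by positivity)
      linarith
    rw [← hn]
    have h4 : ((R.card * (I.card - r) ^ r : ℕ) : ℝ) < ((n ^ r : ℕ) : ℝ) := by
      push_cast
      exact h3
    exact_mod_cast h4
  obtain ⟨D, hD1, hD2, hD3⟩ := exists_hit I R r r hRsub hcount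
  obtain ⟨A, hA1, hA2, hA3⟩ := exists_indep c (I \ D) r (by
    intro q hq
    rw [mem_Rel] at hq
    by_contra hcon
    rw [not_lt] at hcon
    have hS : q.1 ∪ q.2 ∈ R := by
      rw [hR, mem_filter, mem_image]
      refine ⟨⟨q, ?_, rfl⟩, hcon⟩
      rw [mem_Rel]
      exact ⟨hq.1.trans sdiff_subset, hq.2.1.trans sdiff_subset, hq.2.2⟩
    obtain ⟨x, hx1, hx2⟩ := hD3 _ hS
    have hx3 : x ∈ I \ D := by
      rcases mem_union.mp hx1 with h1 | h1
      · exact hq.1 h1
      · exact hq.2.1 h1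
    exact (mem_sdiff.mp hx3).2 hx2)
  refine ⟨A, hA3, ?_⟩
  have h1 : n ≤ (I \ D).card + D.card := by
    have := card_sdiff_add_card_eq_card hD1
    omega
  have h2 : n ≤ A.card + r + r := by omega
  have h3 : (n : ℝ) ≤ A.card + r + r := by exact_mod_cast h2
  linarith

/-- A set in the entropy family has an independent subset of proportion `1 - e`. -/
theorem near {ι : Type*} [DecidableEq ι] (b : ι → G) {e : ℝ} (he : 0 < e) (he1 : e ≤ 1) {m : ℕ} (hm : 24 / e ≤ m)
    {B : Finset ι} (hB : Hf (e ^ 2 / (72 * Real.log m)) m b B) :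
    ∃ A : Finset ι, A ⊆ B ∧ (1 - e) * (B.card : ℝ) ≤ A.card ∧ Indep b A := by
  classical
  have hm24 : (24 : ℝ) ≤ m := by
    refine le_trans ?_ hm
    rw [le_div_iff₀ he]
    linarith
  have hL : 0 < Real.log m := Real.log_pos (by linarith)
  have h1 := hB B (Subset.refl _)
  have h2 : PB m b B = ∏ i : B, U m (b i) := by
    rw [PB, ← prod_coe_sort]
  rw [h2, Ent_prod_U (fun i : B => b i)] at h1
  have hc : Fintype.card B = B.card := Fintype.card_coe B
  have h3 : ∑ ξ ∈ box B m, Real.log (fib (fun i : B => b i) m ξ) ≤ e ^ 2 / 72 * Fintype.card B * (m : ℝ) ^ Fintype.card B := by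
    rw [hc]
    refine h1.trans (le_of_eq ?_)
    field_simp
  have h4 : ∃ A : Finset B, Indep (fun i : B => b i) A ∧ (1 - e) * (Fintype.card B : ℝ) ≤ A.card := by
    by_cases hN : (Fintype.card B : ℝ) * e < 6
    · refine ⟨univ, near_small _ he he1 hm h3 hN, ?_⟩
      rw [card_univ]
      have : (0 : ℝ) ≤ (Fintype.card B : ℝ) := Nat.cast_nonneg _
      nlinarith
    · exact near_large _ he he1 hm h3 (not_lt.mp hN)
  obtain ⟨A, hA1, hA2⟩ := h4
  refine ⟨A.map (Function.Embedding.subtype _), ?_, ?_, ?_⟩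
  · intro x hx
    rw [mem_map] at hx
    obtain ⟨y, -, rfl⟩ := hx
    exact y.2
  · rw [card_map, ← hc]
    exact hA2
  · intro s hs t ht hst
    have key : ∀ u : Finset ι, u ⊆ A.map (Function.Embedding.subtype _) → ∃ u' : Finset B, u' ⊆ A ∧ u = u'.map (Function.Embedding.subtype _) := by
      intro u hu
      refine ⟨A.filter (fun y => (y : ι) ∈ u), filter_subset _ _, ?_⟩
      ext x
      rw [mem_map]
      constructor
      · intro hx
        have := hu hx
        rw [mem_map] at this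
        obtain ⟨y, hy, rfl⟩ := this
        exact ⟨y, mem_filter.mpr ⟨hy, hx⟩, rfl⟩
      · rintro ⟨y, hy, rfl⟩
        exact (mem_filter.mp hy).2
    obtain ⟨s', hs', rfl⟩ := key s hs
    obtain ⟨t', ht', rfl⟩ := key t ht
    rw [sum_map, sum_map] at hst
    rw [hA1 s' hs' t' ht' hst]

end Pool.Agent.PSR10
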