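import Pool.Agent.PSR10.Dom

/-!
# Sets of almost maximal entropy contain almost full independent subsets
-/

set_option autoImplicit false
set_option linter.unusedSectionVars false

namespace Pool.Agent.PSR10

open Finset

section Hit

variable {κ : Type*} [DecidableEq κ]

lemma exists_hit (I : Finset κ) (R : Finset (Finset κ)) (r d : ℕ) (hR : ∀ S ∈ R, S ⊆ I ∧ r ≤ S.card)
    (hc : R.card * (I.card - r) ^ d < I.card ^ d) :
    ∃ D, D ⊆ I ∧ D.card ≤ d ∧ ∀ S ∈ R, ∃ x ∈ S, x ∈ D := by
  classical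
  set P : Finset (Fin d → κ) := Fintype.piFinset (fun _ => I) with hP
  have hPc : P.card = I.card ^ d := by rw [hP, Fintype.card_piFinset]; simp
  set bad : Finset κ → Finset (Fin d → κ) := fun S => Fintype.piFinset (fun _ => I \ S) with hbad
  have hb : ∀ S ∈ R, (bad S).card ≤ (I.card - r) ^ d := by
    intro S hS
    rw [hbad]
    simp only
    rw [Fintype.card_piFinset, prod_const, card_univ, Fintype.card_fin]
    apply Nat.pow_le_pow_left
    rw [card_sdiff_of_subset (hR S hS).1]
    have := (hR S hS).2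
    omega
  have h1 : (R.biUnion bad).card < P.card := by
    calc (R.biUnion bad).card ≤ ∑ S ∈ R, (bad S).card := card_biUnion_le
      _ ≤ ∑ _S ∈ R, (I.card - r) ^ d := sum_le_sum hb
      _ = R.card * (I.card - r) ^ d := by simp
      _ < P.card := by rw [hPc]; exact hc
  obtain ⟨φ, hφ, hφ2⟩ := exists_mem_notMem_of_card_lt_card h1
  refine ⟨univ.image φ, ?_, ?_, ?_⟩
  · intro x hx
    rw [mem_image] at hx
    obtain ⟨k, -, rfl⟩ := hx
    exact Fintype.mem_piFinset.mp hφ k
  · exact card_image_le.trans (by simp)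
  · intro S hS
    by_contra hcon
    push Not at hcon
    apply hφ2
    rw [mem_biUnion]
    refine ⟨S, hS, ?_⟩
    rw [hbad]
    simp only
    rw [Fintype.mem_piFinset]
    intro k
    rw [mem_sdiff]
    refine ⟨Fintype.mem_piFinset.mp hφ k, ?_⟩
    intro h
    exact hcon _ h (mem_image_of_mem _ (mem_univ _))

end Hit

section Rel

variable {G : Type*} [AddCommGroup G] {κ : Type*} [Fintype κ] [DecidableEq κ]

open Classical in
/-- Pairs of disjoint subsets of `I` with equal sums. -/
noncomputable def Rel (c : κ → G) (I : Finset κ) : Finset (Finset κ × Finset κ) :=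
  (I.powerset ×ˢ I.powerset).filter (fun q => Disjoint q.1 q.2 ∧ ∑ i ∈ q.1, c i = ∑ i ∈ q.2, c i)

lemma mem_Rel {c : κ → G} {I : Finset κ} {q : Finset κ × Finset κ} :
    q ∈ Rel c I ↔ q.1 ⊆ I ∧ q.2 ⊆ I ∧ Disjoint q.1 q.2 ∧ ∑ i ∈ q.1, c i = ∑ i ∈ q.2, c i := by
  classical
  simp only [Rel, mem_filter, mem_product, mem_powerset]
  tauto

lemma sum_sdiff_eq {c : κ → G} {s t : Finset κ} (h : ∑ i ∈ s, c i = ∑ i ∈ t, c i) :
    ∑ i ∈ s \ t, c i = ∑ i ∈ t \ s, c i := by
  have h1 := sum_inter_add_sum_sdiff s t c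
  have h2 := sum_inter_add_sum_sdiff t s c
  rw [inter_comm] at h2
  have h3 : ∑ i ∈ s ∩ t, c i + ∑ i ∈ s \ t, c i = ∑ i ∈ s ∩ t, c i + ∑ i ∈ t \ s, c i := by
    rw [h1, h2, h]
  exact add_left_cancel h3

/-- Removing the support of a relation of maximal support leaves an independent set. -/
lemma exists_indep (c : κ → G) (W : Finset κ) (r : ℕ) (hr : ∀ q ∈ Rel c W, (q.1 ∪ q.2).card < r) :
    ∃ A, A ⊆ W ∧ W.card ≤ A.card + r ∧ Indep c A := by
  classical
  have hne : (Rel c W).Nonempty := ⟨(∅, ∅), by rw [mem_Rel]; simp⟩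
  obtain ⟨q, hq, hmax⟩ := exists_max_image (Rel c W) (fun q => (q.1 ∪ q.2).card) hne
  have hq' := mem_Rel.mp hq
  refine ⟨W \ (q.1 ∪ q.2), sdiff_subset, ?_, ?_⟩
  · have h1 := card_sdiff_add_card W (q.1 ∪ q.2)
    have h2 := card_le_card (subset_union_left : W ⊆ W ∪ (q.1 ∪ q.2))
    have h3 := hr q hq
    omega
  · intro s hs t ht hst
    by_contra hne2
    have h1 := sum_sdiff_eq hst
    have hdisj : ∀ u : Finset κ, u ⊆ W \ (q.1 ∪ q.2) → Disjoint q.1 u ∧ Disjoint q.2 u := by
      intro u hu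
      constructor
      · rw [Finset.disjoint_left]
        intro x hx hxu
        exact (mem_sdiff.mp (hu hxu)).2 (mem_union_left _ hx)
      · rw [Finset.disjoint_left]
        intro x hx hxu
        exact (mem_sdiff.mp (hu hxu)).2 (mem_union_right _ hx)
    have hs' : s \ t ⊆ W \ (q.1 ∪ q.2) := sdiff_subset.trans hs
    have ht' : t \ s ⊆ W \ (q.1 ∪ q.2) := sdiff_subset.trans ht
    have hdd : Disjoint (s \ t) (t \ s) := by
      rw [Finset.disjoint_left]
      intro x hx hx2
      exact (mem_sdiff.mp hx2).2 (mem_sdiff.mp hx).1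
    have hmem : (q.1 ∪ (s \ t), q.2 ∪ (t \ s)) ∈ Rel c W := by
      rw [mem_Rel]
      refine ⟨union_subset hq'.1 (hs'.trans sdiff_subset), union_subset hq'.2.1 (ht'.trans sdiff_subset), ?_, ?_⟩
      · simp only
        rw [disjoint_union_left, disjoint_union_right, disjoint_union_right]
        exact ⟨⟨hq'.2.2.1, (hdisj _ ht').1⟩, ⟨(hdisj _ hs').2.symm, hdd⟩⟩
      · simp only
        rw [sum_union (hdisj _ hs').1, sum_union (hdisj _ ht').2, hq'.2.2.2, h1]
    have h2 := hmax _ hmem
    have h3 : (s \ t) ∪ (t \ s) = ∅ := by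
      by_contra h3
      have h4 : ((q.1 ∪ (s \ t)) ∪ (q.2 ∪ (t \ s))) = (q.1 ∪ q.2) ∪ ((s \ t) ∪ (t \ s)) := by
        ext x
        simp only [mem_union]
        tauto
      have h5 : Disjoint (q.1 ∪ q.2) ((s \ t) ∪ (t \ s)) := by
        have := hdisj _ hs'
        have := hdisj _ ht'
        rw [disjoint_union_left, disjoint_union_right, disjoint_union_right]
        exact ⟨⟨(hdisj _ hs').1, (hdisj _ ht').1⟩, ⟨(hdisj _ hs').2, (hdisj _ ht').2⟩⟩
      have h6 := card_union_of_disjoint h5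
      rw [← h4] at h6
      have h7 : 0 < ((s \ t) ∪ (t \ s)).card := card_pos.mpr (nonempty_iff_ne_empty.mpr h3)
      simp only at h2
      omega
    rw [union_eq_empty, sdiff_eq_empty_iff_subset, sdiff_eq_empty_iff_subset] at h3
    exact hne2 (Subset.antisymm h3.1 h3.2)

/-- The box. -/
def box (κ : Type*) [Fintype κ] [DecidableEq κ] (m : ℕ) : Finset (κ → ℕ) := Fintype.piFinset (fun _ => range m)

lemma mem_box {m : ℕ} {ξ : κ → ℕ} : ξ ∈ box κ m ↔ ∀ i, ξ i < m := by
  simp [box]

lemma card_box (m : ℕ) : (box κ m).card = m ^ Fintype.card κ := by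
  rw [box, Fintype.card_piFinset]
  simp

/-- The sum of a point of the box. -/
def sm (c : κ → G) (ξ : κ → ℕ) : G := ∑ i, ξ i • c i

open Classical in
/-- The number of points of the box with the same sum. -/
noncomputable def fib (c : κ → G) (m : ℕ) (ξ : κ → ℕ) : ℕ := ((box κ m).filter (fun η => sm c η = sm c ξ)).card

open Classical in
lemma coeff_prod_U (c : κ → G) (m : ℕ) (g : G) :
    (∏ i, U m (c i)).coeff g = (((box κ m).filter (fun η => sm c η = g)).card : ℝ) := by
  have h1 : ∏ i, U m (c i) = ∑ η ∈ box κ m, AddMonoidAlgebra.single (sm c η) (1 : ℝ) := by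
    simp only [U]
    rw [prod_univ_sum]
    apply sum_congr rfl
    intro η _
    rw [sm]
    have : ∀ s : Finset κ, ∏ i ∈ s, AddMonoidAlgebra.single (η i • c i) (1 : ℝ) = AddMonoidAlgebra.single (∑ i ∈ s, η i • c i) 1 := by
      intro s
      induction s using Finset.induction_on with
      | empty => simp [AddMonoidAlgebra.one_def]
      | insert a s ha ih => rw [prod_insert ha, ih, AddMonoidAlgebra.single_mul_single, sum_insert ha, mul_one]
    exact this univ
  rw [h1, AddMonoidAlgebra.coeff_sum, Finsupp.finsetSum_apply]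
  simp_rw [AddMonoidAlgebra.coeff_single, Finsupp.single_apply]
  rw [sum_ite, sum_const_zero, add_zero, sum_const, nsmul_eq_mul, mul_one]

lemma Ent_prod_U (c : κ → G) (m : ℕ) :
    Ent (∏ i, U m (c i)) = ∑ ξ ∈ box κ m, Real.log (fib c m ξ) := by
  classical
  have h1 : ∏ i, U m (c i) = ∑ η ∈ box κ m, AddMonoidAlgebra.single (sm c η) (1 : ℝ) := by
    simp only [U]
    rw [prod_univ_sum]
    apply sum_congr rfl
    intro η _
    rw [sm]
    have : ∀ s : Finset κ, ∏ i ∈ s, AddMonoidAlgebra.single (η i • c i) (1 : ℝ) = AddMonoidAlgebra.single (∑ i ∈ s, η i • c i) 1 := by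
      intro s
      induction s using Finset.induction_on with
      | empty => simp [AddMonoidAlgebra.one_def]
      | insert a s ha ih => rw [prod_insert ha, ih, AddMonoidAlgebra.single_mul_single, sum_insert ha, mul_one]
    exact this univ
  rw [Ent]
  conv_lhs => rw [h1]
  rw [integ_sum]
  apply sum_congr rfl
  intro ξ _
  rw [integ_single, one_mul, ← h1, coeff_prod_U, fib]

/-- Moving along a relation. -/
def mv (ξ : κ → ℕ) (q : Finset κ × Finset κ) : κ → ℕ := fun i => if i ∈ q.1 then ξ i + 1 else if i ∈ q.2 then ξ i - 1 else ξ i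

lemma sm_mv {c : κ → G} {ξ : κ → ℕ} {q : Finset κ × Finset κ} (hd : Disjoint q.1 q.2) (h1 : ∀ i ∈ q.2, 1 ≤ ξ i)
    (hs : ∑ i ∈ q.1, c i = ∑ i ∈ q.2, c i) : sm c (mv ξ q) = sm c ξ := by
  have h2 : ∀ i, mv ξ q i • c i + (if i ∈ q.2 then c i else 0) = ξ i • c i + (if i ∈ q.1 then c i else 0) := by
    intro i
    unfold mv
    by_cases hi1 : i ∈ q.1
    · have hi2 : i ∉ q.2 := Finset.disjoint_left.mp hd hi1
      simp only [hi1, hi2, if_true, if_false]
      rw [add_nsmul, one_nsmul, add_zero]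
    · by_cases hi2 : i ∈ q.2
      · simp only [hi1, hi2, if_true, if_false]
        have := h1 i hi2
        obtain ⟨k, hk⟩ : ∃ k, ξ i = k + 1 := ⟨ξ i - 1, by omega⟩
        rw [hk, Nat.add_sub_cancel, add_nsmul, one_nsmul, add_zero]
      · simp only [hi1, hi2, if_false]
  have h3 : sm c (mv ξ q) + ∑ i ∈ q.2, c i = sm c ξ + ∑ i ∈ q.1, c i := by
    have h4 : ∑ i ∈ q.2, c i = ∑ i, (if i ∈ q.2 then c i else 0) := by simp
    have h5 : ∑ i ∈ q.1, c i = ∑ i, (if i ∈ q.1 then c i else 0) := by simp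
    rw [h4, h5, sm, sm, ← sum_add_distrib, ← sum_add_distrib]
    exact sum_congr rfl (fun i _ => h2 i)
  rw [hs] at h3
  exact add_right_cancel h3

/-- Interior coordinates. -/
def intr (m : ℕ) (ξ : κ → ℕ) : Finset κ := univ.filter (fun i => 1 ≤ ξ i ∧ ξ i + 1 < m)

lemma mv_mem_box {m : ℕ} {ξ : κ → ℕ} (hξ : ξ ∈ box κ m) {q : Finset κ × Finset κ} (h1 : q.1 ⊆ intr m ξ) :
    mv ξ q ∈ box κ m := by
  rw [mem_box] at hξ ⊢
  intro i
  unfold mv
  split_ifs with hi hi2
  · have := h1 hi
    simp only [intr, mem_filter] at this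
    exact this.2.2
  · have := hξ i
    omega
  · exact hξ i

lemma mv_fst {m : ℕ} {ξ : κ → ℕ} {q : Finset κ × Finset κ} (h2 : q.2 ⊆ intr m ξ) (i : κ) :
    i ∈ q.1 ↔ mv ξ q i = ξ i + 1 := by
  unfold mv
  by_cases c1 : i ∈ q.1
  · simp [c1]
  · by_cases c2 : i ∈ q.2
    · have := h2 c2
      simp only [intr, mem_filter] at this
      simp only [c1, c2, if_true, if_false, false_iff]
      omega
    · simp only [c1, c2, if_false, false_iff]
      omega

lemma mv_snd {m : ℕ} {ξ : κ → ℕ} {q : Finset κ × Finset κ} (h2 : q.2 ⊆ intr m ξ) (hd : Disjoint q.1 q.2) (i : κ) :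
    i ∈ q.2 ↔ mv ξ q i + 1 = ξ i := by
  unfold mv
  by_cases c1 : i ∈ q.1
  · have c2 : i ∉ q.2 := Finset.disjoint_left.mp hd c1
    simp only [c1, c2, if_true, false_iff]
    omega
  · by_cases c2 : i ∈ q.2
    · have := h2 c2
      simp only [intr, mem_filter] at this
      simp only [c1, c2, if_true, if_false, true_iff]
      omega
    · simp only [c1, c2, if_false, false_iff]
      omega

lemma mv_inj {m : ℕ} {ξ : κ → ℕ} {q q' : Finset κ × Finset κ} (h2 : q.2 ⊆ intr m ξ)
    (h2' : q'.2 ⊆ intr m ξ) (hd : Disjoint q.1 q.2) (hd' : Disjoint q'.1 q'.2)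
    (h : mv ξ q = mv ξ q') : q = q' := by
  apply Prod.ext
  · ext i
    rw [mv_fst h2, mv_fst h2', h]
  · ext i
    rw [mv_snd h2 hd, mv_snd h2' hd', h]

lemma card_Rel_le {c : κ → G} {m : ℕ} {ξ : κ → ℕ} (hξ : ξ ∈ box κ m) : (Rel c (intr m ξ)).card ≤ fib c m ξ := by
  classical
  rw [fib]
  apply card_le_card_of_injOn (fun q => mv ξ q)
  · intro q hq
    rw [mem_coe, mem_Rel] at hq
    rw [mem_coe, mem_filter]
    refine ⟨mv_mem_box hξ hq.1, sm_mv hq.2.2.1 ?_ hq.2.2.2⟩
    intro i hi
    have := hq.2.1 hi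
    simp only [intr, mem_filter] at this
    exact this.2.1
  · intro q hq q' hq' h
    rw [mem_coe, mem_Rel] at hq hq'
    exact mv_inj hq.2.1 hq'.2.1 hq.2.2.1 hq'.2.2.1 h

lemma card_fixed (m : ℕ) (i : κ) (v : ℕ) : m * ((box κ m).filter (fun ξ => ξ i = v)).card ≤ m ^ Fintype.card κ := by
  classical
  by_cases hv : v < m
  · have h1 : (box κ m).filter (fun ξ => ξ i = v) ⊆ Fintype.piFinset (Function.update (fun _ => range m) i {v}) := by
      intro ξ hξ
      rw [mem_filter, mem_box] at hξ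
      rw [Fintype.mem_piFinset]
      intro j
      by_cases hj : j = i
      · subst hj
        rw [Function.update_self, mem_singleton]
        exact hξ.2
      · rw [Function.update_of_ne hj, mem_range]
        exact hξ.1 j
    have h2 := card_le_card h1
    rw [Fintype.card_piFinset] at h2
    have h3 : ∏ j, (Function.update (fun _ => range m) i {v} j : Finset ℕ).card = m ^ (Fintype.card κ - 1) := by
      rw [← mul_prod_erase univ _ (mem_univ i), Function.update_self, card_singleton, one_mul]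
      have h4 : ∀ j ∈ univ.erase i, (Function.update (fun _ => range m) i {v} j : Finset ℕ).card = m := by
        intro j hj
        rw [Function.update_of_ne (ne_of_mem_erase hj), card_range]
      rw [prod_congr rfl h4, prod_const, card_erase_of_mem (mem_univ i), card_univ]
    rw [h3] at h2
    have hpos : 0 < Fintype.card κ := Fintype.card_pos_iff.mpr ⟨i⟩
    calc m * ((box κ m).filter (fun ξ => ξ i = v)).card ≤ m * m ^ (Fintype.card κ - 1) := Nat.mul_le_mul_left _ h2
      _ = m ^ Fintype.card κ := by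
        rw [← pow_succ']
        congr 1
        omega
  · have h1 : (box κ m).filter (fun ξ => ξ i = v) = ∅ := by
      rw [filter_eq_empty_iff]
      intro ξ hξ h
      rw [mem_box] at hξ
      have := hξ i
      omega
    rw [h1, card_empty, mul_zero]
    exact Nat.zero_le _

/-- The average number of boundary coordinates. -/
lemma sum_boundary (m : ℕ) : m * ∑ ξ ∈ box κ m, (univ \ intr m ξ).card ≤ 2 * Fintype.card κ * m ^ Fintype.card κ := by
  classical
  have h1 : ∀ ξ ∈ box κ m, (univ \ intr m ξ).card ≤ ∑ i, ((if ξ i = 0 then 1 else 0) + (if ξ i = m - 1 then 1 else 0)) := by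
    intro ξ hξ
    rw [mem_box] at hξ
    rw [card_eq_sum_ones]
    have h2 : ∑ i ∈ univ \ intr m ξ, 1 ≤ ∑ i ∈ univ \ intr m ξ, ((if ξ i = 0 then 1 else 0) + (if ξ i = m - 1 then 1 else 0)) := by
      apply sum_le_sum
      intro i hi
      simp only [mem_sdiff, mem_univ, true_and, intr, mem_filter, not_and, not_lt] at hi
      have := hξ i
      by_cases h0 : ξ i = 0
      · simp [h0]
      · have h3 := hi (by omega)
        have h4 : ξ i = m - 1 := by omega
        rw [if_pos h4]
        omega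
    exact h2.trans (sum_le_sum_of_subset (subset_univ _))
  have h2 : ∑ ξ ∈ box κ m, (univ \ intr m ξ).card ≤ ∑ i : κ, (((box κ m).filter (fun ξ => ξ i = 0)).card + ((box κ m).filter (fun ξ => ξ i = m - 1)).card) := by
    refine (sum_le_sum h1).trans (le_of_eq ?_)
    rw [sum_comm]
    apply sum_congr rfl
    intro i _
    rw [sum_add_distrib, card_filter, card_filter]
  calc m * ∑ ξ ∈ box κ m, (univ \ intr m ξ).card
      ≤ m * ∑ i : κ, (((box κ m).filter (fun ξ => ξ i = 0)).card + ((box κ m).filter (fun ξ => ξ i = m - 1)).card) := Nat.mul_le_mul_left _ h2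
    _ = ∑ i : κ, (m * ((box κ m).filter (fun ξ => ξ i = 0)).card + m * ((box κ m).filter (fun ξ => ξ i = m - 1)).card) := by
        rw [mul_sum]
        exact sum_congr rfl (fun i _ => by ring)
    _ ≤ ∑ _i : κ, (m ^ Fintype.card κ + m ^ Fintype.card κ) := sum_le_sum (fun i _ => Nat.add_le_add (card_fixed m i 0) (card_fixed m i (m - 1)))
    _ = 2 * Fintype.card κ * m ^ Fintype.card κ := by
        rw [sum_const, card_univ, smul_eq_mul]
        ring

end Rel

end Pool.Agent.PSR10
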